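import Pool.Agent.T9h36.Pad
import Pool.Agent.T9h35.Advice

set_option autoImplicit false

/-!
# Monotone circuits that are correct on two slices
-/

namespace Pool.Agent.T9h36

open Finset
open Pool.Agent.T9h16
open Pool.Agent.T9h35
open scoped Classical

theorem slice_core (n k m m' r u d : ℕ) (hr : 2 ≤ r) (hk : k = u + 2 * GG r)
    (hn : u + d + 2 * (GG r * (2 * r)) = n) (C : MonoCircuit n) (hs : C.size ≤ 2 ^ r)
    (hpos : ∀ G : SimpleGraph (Fin n), G.edgeSet.ncard = m →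
      (∃ c : Finset (Fin n), G.IsClique (c : Set (Fin n)) ∧ k ≤ c.card) → C.Accepts G)
    (hneg : ∀ G : SimpleGraph (Fin n), G.edgeSet.ncard = m' →
      (¬ ∃ c : Finset (Fin n), G.IsClique (c : Set (Fin n)) ∧ k ≤ c.card) → ¬ C.Accepts G)
    (hm : (u + 2 * (GG r * (2 * r))).choose 2 ≤ m)
    (hm' : m' + GG r ^ 2 + 2 * (GG r * (2 * r)) * n ≤
      SimpleGraph.extremalNumber n (⊤ : SimpleGraph (Fin k)))
    (hmm : m + GG r ^ 2 * (2 * r) ^ 2 ≤ m') : False := by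
  obtain ⟨g, hg⟩ : ∃ g, g = GG r := ⟨_, rfl⟩
  obtain ⟨w, hw⟩ : ∃ w, w = 2 * r := ⟨_, rfl⟩
  have hg2 : 2 ≤ g := by rw [hg]; exact two_le_GG r hr
  have hard := hard2 r hr C.size hs
  rw [← hg] at hk hn hm hm' hmm hard
  rw [← hw] at hn hm hm' hmm hard
  have hc : k - 1 + 1 = u + 2 * g := by omega
  have hcard : Fintype.card (VV g w u d) = Fintype.card (Fin n) := by
    simp only [Fintype.card_sum, Fintype.card_prod, Fintype.card_fin]
    rw [← hn]
    ring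
  obtain ⟨ι⟩ := Fintype.card_eq.1 hcard
  have hE : (Set.univ : Set (BE g w)).ncard = g ^ 2 * w ^ 2 := by
    rw [Set.ncard_univ, Nat.card_eq_fintype_card]
    simp only [Fintype.card_prod, Fintype.card_fin]
    ring
  obtain ⟨F, hF⟩ : ∃ F, F = (HH (p := 1) (u := u) fun _ => (∅ : Set (BE g w))).edgeSet.ncard :=
    ⟨_, rfl⟩
  obtain ⟨H, hH⟩ : ∃ H, H = (Hg g w u d (k - 1)).edgeSet.ncard := ⟨_, rfl⟩
  have hfull := full_ncard n k g w u d (by omega) hn
  rw [WW_ncard _ le_rfl, hE, ← hF, ← hH] at hfull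
  have hFg : F + g ^ 2 * w ^ 2 ≤ (u + 2 * (g * w)).choose 2 := by
    have := HH_ncard_le g w u Set.univ
    rw [HH_ncard, hE, ← hF] at this
    exact this
  have hgw : g ^ 2 ≤ g ^ 2 * w ^ 2 := Nat.le_mul_of_pos_right _ (by
    have : 0 < w := by omega
    positivity)
  -- the two sets of optional edges
  obtain ⟨Y0, hY0H, hY0⟩ := Set.exists_subset_card_eq (s := (Hg g w u d (k - 1)).edgeSet)
    (n := m - F - g ^ 2) (by rw [← hH]; omega)
  obtain ⟨Y1, hY01, hY1H, hY1⟩ := Set.exists_subsuperset_card_eq (n := m' + g ^ 2 - F - g ^ 2 * w ^ 2)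
    hY0H (by rw [hY0]; omega) (by rw [← hH]; omega)
  have hdiag : ∀ Y, Y ⊆ (Hg g w u d (k - 1)).edgeSet →
      (SimpleGraph.fromEdgeSet Y).edgeSet = Y := by
    intro Y hY
    rw [SimpleGraph.edgeSet_fromEdgeSet]
    ext e
    constructor
    · exact fun h => h.1
    · exact fun h => ⟨h, SimpleGraph.not_isDiag_of_mem_edgeSet _ (hY h)⟩
  have hle : ∀ Y, Y ⊆ (Hg g w u d (k - 1)).edgeSet →
      SimpleGraph.fromEdgeSet Y ≤ Hg g w u d (k - 1) := by
    intro Y hY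
    rw [← SimpleGraph.edgeSet_subset_edgeSet, hdiag Y hY]
    exact hY
  obtain ⟨D0, hD0⟩ : ∃ D0, D0 = SimpleGraph.fromEdgeSet Y0 := ⟨_, rfl⟩
  obtain ⟨D1, hD1⟩ : ∃ D1, D1 = SimpleGraph.fromEdgeSet Y1 := ⟨_, rfl⟩
  have hD0H : D0 ≤ Hg g w u d (k - 1) := by rw [hD0]; exact hle Y0 hY0H
  have hD1H : D1 ≤ Hg g w u d (k - 1) := by rw [hD1]; exact hle Y1 hY1H
  have hD01 : D0 ≤ D1 := by
    rw [hD0, hD1, ← SimpleGraph.edgeSet_subset_edgeSet, hdiag _ hY0H, hdiag _ hY1H]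
    exact hY01
  have hD0c : D0.edgeSet.ncard = m - F - g ^ 2 := by rw [hD0, hdiag _ hY0H, hY0]
  have hD1c : D1.edgeSet.ncard = m' + g ^ 2 - F - g ^ 2 * w ^ 2 := by
    rw [hD1, hdiag _ hY1H, hY1]
  obtain ⟨gt, hgt, hav⟩ := C.slp (fun z => Γ ι z D0) (fun a b => Γ_leaf ι hD0H a b)
  refine hard gt hgt _ hav ?_ ?_
  · intro z hz hzc
    refine ⟨_, rfl, ?_⟩
    apply hpos
    · rw [Γ_ncard ι z hD0H, ← hF, hzc, hD0c]
      omega
    · rw [hk]
      exact (Γ_clique (by omega) hc ι hD0H).2 hz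
  · rintro z hz hzc o rfl hoz
    have hz' : z.ncard + g ^ 2 = g ^ 2 * w ^ 2 := by
      have h1 := Set.ncard_add_ncard_compl z
      rw [hzc] at h1
      rw [h1, ← hE, Set.ncard_univ]
    refine hneg (Γ ι z D1) ?_ ?_ (C.mono (Γ_mono ι subset_rfl hD01) hoz)
    · rw [Γ_ncard ι z hD1H, ← hF, hD1c]
      omega
    · rw [hk]
      exact fun h => hz ((Γ_clique (by omega) hc ι hD1H).1 h)

theorem choose_two_add (x a : ℕ) : (x + a).choose 2 ≤ x.choose 2 + a * (x + a) := by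
  induction a with
  | zero => simp
  | succ a ih =>
    have h : (x + (a + 1)).choose 2 = (x + a).choose 1 + (x + a).choose 2 :=
      Nat.choose_succ_succ' (x + a) 1
    rw [h, Nat.choose_one_right]
    nlinarith

/-- The quantitative theorem. -/
theorem slice_main (n k m m' : ℕ) (C : MonoCircuit n)
    (hpos : ∀ G : SimpleGraph (Fin n), G.edgeSet.ncard = m →
      (∃ c : Finset (Fin n), G.IsClique (c : Set (Fin n)) ∧ k ≤ c.card) → C.Accepts G)
    (hneg : ∀ G : SimpleGraph (Fin n), G.edgeSet.ncard = m' →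
      (¬ ∃ c : Finset (Fin n), G.IsClique (c : Set (Fin n)) ∧ k ≤ c.card) → ¬ C.Accepts G)
    (hk : 1000000 * (Nat.log 2 (C.size + 1) + 1) ^ 3 ≤ k)
    (hm : k.choose 2 + 1000000 * n * (Nat.log 2 (C.size + 1) + 1) ^ 4 ≤ m)
    (hm' : m' + 1000000 * n * (Nat.log 2 (C.size + 1) + 1) ^ 4 ≤
      SimpleGraph.extremalNumber n (⊤ : SimpleGraph (Fin k))) :
    m' < m + 1000000 * (Nat.log 2 (C.size + 1) + 1) ^ 7 := by
  obtain ⟨l, hl⟩ : ∃ l, l = Nat.log 2 (C.size + 1) + 1 := ⟨_, rfl⟩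
  rw [← hl] at hk hm hm' ⊢
  by_contra hcon
  rw [not_lt] at hcon
  have hl1 : 1 ≤ l := by omega
  obtain ⟨r, hr⟩ : ∃ r, r = l + 1 := ⟨_, rfl⟩
  have hr2 : 2 ≤ r := by omega
  have hsize : C.size ≤ 2 ^ r := by
    have : C.size + 1 < 2 ^ l := by
      rw [hl]
      exact Nat.lt_pow_succ_log_self (by norm_num) _
    calc C.size ≤ 2 ^ l := by omega
      _ ≤ 2 ^ r := Nat.pow_le_pow_right (by norm_num) (by omega)
  have hrl : r ≤ 2 * l := by omega
  have hLL := LL_lin r (by omega)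
  have hLL2 := LL_sq r (by omega)
  have hG1 : 2 * GG r ≤ 1600 * l ^ 3 := by
    rw [GG]
    calc 2 * (4 * r ^ 2 * LL r) ≤ 2 * (4 * r ^ 2 * (25 * r)) := by
          apply Nat.mul_le_mul_left
          exact Nat.mul_le_mul_left _ hLL
      _ = 200 * r ^ 3 := by ring
      _ ≤ 200 * (2 * l) ^ 3 := Nat.mul_le_mul_left _ (Nat.pow_le_pow_left hrl 3)
      _ = 1600 * l ^ 3 := by ring
  have hGk : 2 * GG r ≤ k :=
    hG1.trans ((Nat.mul_le_mul_right _ (by norm_num)).trans hk)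
  obtain ⟨a, ha⟩ : ∃ a, a = 2 * (GG r * (2 * r)) := ⟨_, rfl⟩
  have ha4 : a ≤ 6400 * l ^ 4 := by
    rw [ha]
    calc 2 * (GG r * (2 * r)) = (2 * GG r) * (2 * r) := by ring
      _ ≤ (1600 * l ^ 3) * (2 * (2 * l)) :=
          Nat.mul_le_mul hG1 (Nat.mul_le_mul_left _ hrl)
      _ = 6400 * l ^ 4 := by ring
  have ha7 : GG r ^ 2 * (2 * r) ^ 2 ≤ 1000000 * l ^ 7 := by
    calc GG r ^ 2 * (2 * r) ^ 2 = 64 * r ^ 6 * (LL r) ^ 2 := by rw [GG]; ring
      _ ≤ 64 * r ^ 6 * (25 * r) := Nat.mul_le_mul_left _ hLL2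
      _ = 1600 * r ^ 7 := by ring
      _ ≤ 1600 * (2 * l) ^ 7 := Nat.mul_le_mul_left _ (Nat.pow_le_pow_left hrl 7)
      _ = 204800 * l ^ 7 := by ring
      _ ≤ 1000000 * l ^ 7 := Nat.mul_le_mul_right _ (by norm_num)
  -- `n` is large
  have hl3 : 1 ≤ l ^ 3 := Nat.one_le_pow _ _ hl1
  have hl4 : 1 ≤ l ^ 4 := Nat.one_le_pow _ _ hl1
  have hex : SimpleGraph.extremalNumber n (⊤ : SimpleGraph (Fin k)) ≤ n.choose 2 := by
    rw [extremal_eq n k (by omega), ncard_edgeSet_eq]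
    refine (SimpleGraph.card_edgeFinset_le_card_choose_two).trans (le_of_eq ?_)
    rw [Fintype.card_fin]
  have hcc : k.choose 2 + 1000000 * n * l ^ 4 ≤ n.choose 2 := by omega
  have hn0 : 0 < n := by
    by_contra hn0
    have hn0' : n = 0 := by omega
    rw [hn0'] at hcc
    have h1 : (2 : ℕ).choose 2 ≤ k.choose 2 := Nat.choose_le_choose 2 (by omega)
    simp at hcc h1
    omega
  have hnl : 0 < n * l ^ 4 := Nat.mul_pos hn0 hl4
  have hkn : k ≤ n := by
    by_contra hkn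
    have h1 : n.choose 2 ≤ k.choose 2 := Nat.choose_le_choose 2 (by omega)
    have : 1000000 * n * l ^ 4 = 1000000 * (n * l ^ 4) := by ring
    omega
  have hfit : k + a ≤ n := by
    by_contra hfit
    have h1 := choose_two_add k (n - k)
    have h2 : k + (n - k) = n := by omega
    rw [h2] at h1
    have h3 : (n - k) * n ≤ a * n := Nat.mul_le_mul_right _ (by omega)
    have h4 : a * n ≤ 6400 * (n * l ^ 4) := by
      calc a * n ≤ (6400 * l ^ 4) * n := Nat.mul_le_mul_right _ ha4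
        _ = _ := by ring
    have : 1000000 * n * l ^ 4 = 1000000 * (n * l ^ 4) := by ring
    omega
  have han : a * n ≤ 6400 * (n * l ^ 4) := by
    calc a * n ≤ (6400 * l ^ 4) * n := Nat.mul_le_mul_right _ ha4
      _ = _ := by ring
  obtain ⟨u, hu⟩ : ∃ u, k = u + 2 * GG r := ⟨k - 2 * GG r, by omega⟩
  obtain ⟨d, hd⟩ : ∃ d, u + d + a = n := ⟨n - u - a, by omega⟩
  refine slice_core n k m m' r u d hr2 hu (by rw [← hd, ha]) C hsize hpos hneg ?_ ?_ ?_
  · rw [← ha]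
    calc (u + a).choose 2 ≤ (k + a).choose 2 := Nat.choose_le_choose 2 (by omega)
      _ ≤ k.choose 2 + a * (k + a) := choose_two_add k a
      _ ≤ k.choose 2 + a * n := Nat.add_le_add_left (Nat.mul_le_mul_left _ hfit) _
      _ ≤ k.choose 2 + 6400 * (n * l ^ 4) := Nat.add_le_add_left han _
      _ ≤ k.choose 2 + 1000000 * n * l ^ 4 := by
          apply Nat.add_le_add_left
          rw [mul_assoc]
          exact Nat.mul_le_mul_right _ (by norm_num)
      _ ≤ m := hm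
  · rw [← ha]
    have hg2 : GG r ^ 2 ≤ a * n := by
      have h1 : GG r ≤ a := by
        rw [ha]
        have : 1 ≤ r := by omega
        nlinarith
      rw [sq]
      exact Nat.mul_le_mul h1 (by omega)
    refine le_trans ?_ hm'
    have : 1000000 * n * l ^ 4 = 1000000 * (n * l ^ 4) := by ring
    omega
  · omega

end Pool.Agent.T9h36
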