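import Pool.Agent.T9h36.Slice
import Pool.Agent.T9h16.Grid

set_option autoImplicit false

/-!
# Padding the block function to graphs with a prescribed number of edges
-/

namespace Pool.Agent.T9h36

open Finset
open Pool.Agent.T9h16
open scoped Classical

/-- Structured vertices (two groups and universal vertices) and `d` dummy vertices. -/
abbrev VV (g w u d : ℕ) : Type := Ver 1 g w u ⊕ Fin d

/-- Adjacency in the graph of all the optional edges: every optional edge contains a dummy vertex,
and its ends have different colours modulo `c`. -/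
def adjH {g w u d : ℕ} (c : ℕ) : VV g w u d → VV g w u d → Prop
  | .inr j, .inr j' => (u + j) % c ≠ (u + j') % c
  | .inr j, .inl (.inr (.inr i)) => (u + j) % c ≠ (i : ℕ) % c
  | .inl (.inr (.inr i)), .inr j => (i : ℕ) % c ≠ (u + j) % c
  | .inl (.inl _), .inr _ => False
  | .inl (.inr (.inl _)), .inr _ => False
  | .inr _, .inl (.inl _) => False
  | .inr _, .inl (.inr (.inl _)) => False
  | .inl _, .inl _ => False

/-- The graph of the optional edges. -/
def Hg (g w u d c : ℕ) : SimpleGraph (VV g w u d) where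
  Adj := adjH c
  symm := ⟨by
    rintro ((a | a | a) | a) ((b | b | b) | b) h
    · exact h
    · exact h
    · exact h
    · exact h
    · exact h
    · exact h
    · exact h
    · exact h
    · exact h
    · exact h
    · exact h
    · exact Ne.symm h
    · exact h
    · exact h
    · exact Ne.symm h
    · exact Ne.symm h⟩
  loopless := ⟨by
    rintro ((a | a | a) | a) h
    · exact h
    · exact h
    · exact h
    · exact h rfl⟩

/-- The embedding of the structured vertices. -/
def inlE (g w u d : ℕ) : Ver 1 g w u ↪ VV g w u d := ⟨Sum.inl, Sum.inl_injective⟩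

/-- The graph with block variables `z` and optional edges `D`. -/
def WW {g w u d : ℕ} (z : Set (BE g w)) (D : SimpleGraph (VV g w u d)) :
    SimpleGraph (VV g w u d) :=
  (HH (u := u) fun _ => z).map (inlE g w u d) ⊔ D

theorem WW_mono {g w u d : ℕ} {z z' : Set (BE g w)} {D D' : SimpleGraph (VV g w u d)}
    (hz : z ⊆ z') (hD : D ≤ D') : WW z D ≤ WW z' D' :=
  sup_le_sup (SimpleGraph.map_monotone _ (HH_mono fun _ => hz)) hD

theorem Hg_inl {g w u d c : ℕ} (a b : Ver 1 g w u) :
    ¬ (Hg g w u d c).Adj (Sum.inl a) (Sum.inl b) := by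
  intro h
  change adjH c _ _ at h
  rcases a with a | a | a <;> rcases b with b | b | b <;> exact h

theorem WW_inl {g w u d c : ℕ} {z : Set (BE g w)} {D : SimpleGraph (VV g w u d)}
    (hD : D ≤ Hg g w u d c) (a b : Ver 1 g w u) :
    (WW z D).Adj (Sum.inl a) (Sum.inl b) ↔ (HH (u := u) fun _ => z).Adj a b := by
  constructor
  · rintro (h | h)
    · have := (SimpleGraph.map_adj_apply (f := inlE g w u d) (a := a) (b := b)).1 h
      exact this
    · exact (Hg_inl a b (hD h)).elim
  · intro h
    left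
    exact (SimpleGraph.map_adj_apply (f := inlE g w u d) (a := a) (b := b)).2 h

theorem WW_inr {g w u d : ℕ} {z : Set (BE g w)} {D : SimpleGraph (VV g w u d)}
    (a : VV g w u d) (j : Fin d) : (WW z D).Adj a (Sum.inr j) ↔ D.Adj a (Sum.inr j) := by
  constructor
  · rintro (h | h)
    · rw [SimpleGraph.map_adj] at h
      obtain ⟨u', v', _, _, h⟩ := h
      exact (Sum.inl_ne_inr h).elim
    · exact h
  · exact fun h => Or.inr h

/-- Every adjacency is constant or a block variable. -/
theorem WW_leaf {g w u d c : ℕ} {D : SimpleGraph (VV g w u d)} (hD : D ≤ Hg g w u d c)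
    (a b : VV g w u d) : Leaf fun z => (WW z D).Adj a b := by
  rcases b with b | j
  · rcases a with a | i
    · rcases HH_leaf a b with ⟨t, ht⟩ | ⟨i, e, he⟩
      · exact Or.inr ⟨t, fun z => (WW_inl hD a b).trans (ht fun _ => z)⟩
      · exact Or.inl ⟨e, fun z => (WW_inl hD a b).trans (he fun _ => z)⟩
    · exact Or.inr ⟨D.Adj (Sum.inl b) (Sum.inr i), fun z =>
        ((WW z D).adj_comm _ _).trans (WW_inr _ _)⟩
  · exact Or.inr ⟨_, fun z => WW_inr _ _⟩

/-- The colour of a universal vertex or a dummy vertex. -/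
def col {g w u d : ℕ} : VV g w u d → ℕ
  | .inr j => u + j
  | .inl (.inr (.inr i)) => i
  | .inl (.inl _) => 0
  | .inl (.inr (.inl _)) => 0

theorem WW_clique {g w u d c : ℕ} (hg : 1 ≤ g) (hc : c + 1 = u + 2 * g) {z : Set (BE g w)}
    {D : SimpleGraph (VV g w u d)} (hD : D ≤ Hg g w u d c) :
    (∃ S : Finset (VV g w u d), (WW z D).IsClique (S : Set (VV g w u d)) ∧
      u + 2 * g ≤ S.card) ↔ TC z := by
  have hHH := HH_clique (p := 1) (g := g) (w := w) (u := u) hg (fun _ => z)
  constructor
  · rintro ⟨S, hS, hcard⟩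
    by_cases hj : ∃ j, Sum.inr j ∈ S
    · exfalso
      obtain ⟨j, hj⟩ := hj
      have hadj : ∀ a ∈ S, ∀ b ∈ S, a ≠ b → (WW z D).Adj a b := fun a ha b hb hab => hS ha hb hab
      -- every element of `S` has a colour
      have hcol : ∀ a ∈ S, (∃ i, a = Sum.inr i) ∨ (∃ i, a = Sum.inl (Sum.inr (Sum.inr i))) := by
        intro a ha
        by_cases haj : a = Sum.inr j
        · exact Or.inl ⟨j, haj⟩
        have h1 := hD ((WW_inr _ _).1 (hadj a ha _ hj haj))
        change adjH c _ _ at h1
        rcases a with (a | a | a) | a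
        · exact h1.elim
        · exact h1.elim
        · exact Or.inr ⟨a, rfl⟩
        · exact Or.inl ⟨a, rfl⟩
      have hinj : Set.InjOn (fun a : VV g w u d => col a % c) S := by
        intro a ha b hb hab
        by_contra hne
        have h1 := hadj a ha b hb hne
        rcases hcol a ha with ⟨i, rfl⟩ | ⟨i, rfl⟩ <;> rcases hcol b hb with ⟨i', rfl⟩ | ⟨i', rfl⟩
        · exact (hD ((WW_inr _ _).1 h1) : adjH c _ _) hab
        · exact (hD ((WW_inr _ _).1 h1.symm) : adjH c _ _) hab.symm
        · exact (hD ((WW_inr _ _).1 h1) : adjH c _ _) hab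
        · apply hne
          have hab' : (i : ℕ) % c = (i' : ℕ) % c := hab
          have hi := i.2
          have hi' := i'.2
          rw [Nat.mod_eq_of_lt (by omega), Nat.mod_eq_of_lt (by omega)] at hab'
          rw [Fin.ext hab']
      have := card_le_card_of_injOn (s := S) (t := Finset.range c)
        (fun a : VV g w u d => col a % c)
        (fun a _ => by
          rw [coe_range, Set.mem_Iio]
          exact Nat.mod_lt _ (by omega)) hinj
      rw [card_range] at this
      omega
    · push Not at hj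
      have : ∃ i : Fin 1 × Fin 1, TC ((fun _ => z : Fin 1 × Fin 1 → Set (BE g w)) i) := by
        rw [← hHH]
        refine ⟨S.toLeft, ?_, ?_⟩
        · intro a ha b hb hab
          rw [mem_coe, mem_toLeft] at ha hb
          exact (WW_inl hD a b).1 (hS ha hb fun h => hab (Sum.inl_injective h))
        · have h1 := card_toLeft_add_card_toRight (u := S)
          have h2 : S.toRight = ∅ := by
            apply eq_empty_of_forall_notMem
            intro j hj'
            rw [mem_toRight] at hj'
            exact hj j hj'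
          rw [h2, card_empty] at h1
          omega
      exact this.choose_spec
  · intro hz
    obtain ⟨S, hS, hcard⟩ := hHH.2 ⟨(0, 0), hz⟩
    refine ⟨S.map (inlE g w u d), ?_, by rw [card_map]; exact hcard⟩
    rw [coe_map]
    exact (hS.map (f := inlE g w u d)).mono le_sup_left

/-- The edge of a block variable. -/
def bedge {g w u : ℕ} (e : BE g w) : Sym2 (Ver 1 g w u) :=
  s(Sum.inl (0, e.1), Sum.inr (Sum.inl (0, e.2)))

theorem bedge_inj {g w u : ℕ} : Function.Injective (bedge (g := g) (w := w) (u := u)) := by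
  rintro ⟨e1, e2⟩ ⟨e1', e2'⟩ h
  simp only [bedge, Sym2.eq_iff, Sum.inl.injEq, Sum.inr.injEq, Prod.mk.injEq, true_and,
    reduceCtorEq, and_false, or_false] at h
  rw [h.1, h.2]

theorem HH_edges {g w u : ℕ} (z : Set (BE g w)) :
    (HH (p := 1) (u := u) fun _ => z).edgeSet =
      (HH (p := 1) (u := u) fun _ => (∅ : Set (BE g w))).edgeSet ∪ bedge '' z := by
  ext e
  induction e using Sym2.ind with
  | _ x y =>
  rw [Set.mem_union, SimpleGraph.mem_edgeSet, SimpleGraph.mem_edgeSet]
  constructor
  · intro h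
    change adjV (fun _ => z) x y at h
    change adjV (fun _ => ∅) x y ∨ _
    rcases x with x | x | x <;> rcases y with y | y | y
    · exact Or.inl h
    · refine Or.inr ⟨(x.2, y.2), h, ?_⟩
      have hx : x = (0, x.2) := Prod.ext (Subsingleton.elim _ _) rfl
      have hy : y = (0, y.2) := Prod.ext (Subsingleton.elim _ _) rfl
      rw [hx, hy]
      rfl
    · exact Or.inl h
    · refine Or.inr ⟨(y.2, x.2), h, ?_⟩
      have hx : x = (0, x.2) := Prod.ext (Subsingleton.elim _ _) rfl
      have hy : y = (0, y.2) := Prod.ext (Subsingleton.elim _ _) rfl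
      rw [hx, hy]
      exact Sym2.eq_swap
    · exact Or.inl h
    · exact Or.inl h
    · exact Or.inl h
    · exact Or.inl h
    · exact Or.inl h
  · rintro (h | ⟨e, he, h⟩)
    · exact HH_mono (fun _ => Set.empty_subset z) h
    · change adjV (fun _ => z) x y
      rw [bedge, Sym2.eq_iff] at h
      rcases h with ⟨rfl, rfl⟩ | ⟨rfl, rfl⟩
      · exact he
      · exact he

theorem HH_ncard {g w u : ℕ} (z : Set (BE g w)) :
    (HH (p := 1) (u := u) fun _ => z).edgeSet.ncard =
      (HH (p := 1) (u := u) fun _ => (∅ : Set (BE g w))).edgeSet.ncard + z.ncard := by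
  rw [HH_edges, Set.ncard_union_eq ?_ (Set.toFinite _) (Set.toFinite _),
    Set.ncard_image_of_injective _ bedge_inj]
  rw [Set.disjoint_left]
  rintro _ h ⟨e, -, rfl⟩
  rw [bedge, SimpleGraph.mem_edgeSet] at h
  exact h

theorem WW_ncard {g w u d c : ℕ} (z : Set (BE g w)) {D : SimpleGraph (VV g w u d)}
    (hD : D ≤ Hg g w u d c) : (WW z D).edgeSet.ncard =
      (HH (p := 1) (u := u) fun _ => (∅ : Set (BE g w))).edgeSet.ncard + z.ncard +
        D.edgeSet.ncard := by
  rw [← HH_ncard, WW, SimpleGraph.edgeSet_sup, Set.ncard_union_eq ?_ (Set.toFinite _)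
    (Set.toFinite _), SimpleGraph.edgeSet_map,
    Set.ncard_image_of_injective _ (Function.Embedding.injective _)]
  rw [Set.disjoint_left]
  intro e h1 h2
  rw [SimpleGraph.edgeSet_map] at h1
  obtain ⟨e', -, rfl⟩ := h1
  induction e' using Sym2.ind with
  | _ x y =>
  exact Hg_inl x y (hD (show D.Adj (Sum.inl x) (Sum.inl y) from h2))

/-! ### Turan graphs -/

/-- The embedding of the Turan graph. -/
def tur {g w u d : ℕ} (i : Fin (u + d)) : VV g w u d :=
  Sum.elim (fun a => Sum.inl (Sum.inr (Sum.inr a))) Sum.inr (finSumFinEquiv.symm i)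

theorem tur_inj {g w u d : ℕ} : Function.Injective (tur (g := g) (w := w) (u := u) (d := d)) := by
  intro i j h
  obtain ⟨i, rfl⟩ := finSumFinEquiv.surjective i
  obtain ⟨j, rfl⟩ := finSumFinEquiv.surjective j
  unfold tur at h
  rw [Equiv.symm_apply_apply, Equiv.symm_apply_apply] at h
  rcases i with i | i <;> rcases j with j | j
  · simp only [Sum.elim_inl, Sum.inl.injEq, Sum.inr.injEq] at h
    rw [h]
  · simp at h
  · simp at h
  · simp only [Sum.elim_inr, Sum.inr.injEq] at h
    rw [h]

theorem tur_adj {g w u d c : ℕ} (i j : Fin (u + d)) (h : (SimpleGraph.turanGraph (u + d) c).Adj i j) :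
    (WW (Set.univ : Set (BE g w)) (Hg g w u d c)).Adj (tur i) (tur j) := by
  rw [SimpleGraph.turanGraph_adj] at h
  obtain ⟨i, rfl⟩ := finSumFinEquiv.surjective i
  obtain ⟨j, rfl⟩ := finSumFinEquiv.surjective j
  unfold tur
  rw [Equiv.symm_apply_apply, Equiv.symm_apply_apply]
  rcases i with i | i <;> rcases j with j | j
  · rw [finSumFinEquiv_apply_left, finSumFinEquiv_apply_left, Fin.val_castAdd,
      Fin.val_castAdd] at h
    refine (WW_inl le_rfl _ _).2 ?_
    change i ≠ j
    rintro rfl
    exact h rfl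
  · rw [finSumFinEquiv_apply_left, finSumFinEquiv_apply_right, Fin.val_castAdd,
      Fin.val_natAdd] at h
    exact (WW_inr _ _).2 h
  · rw [finSumFinEquiv_apply_left, finSumFinEquiv_apply_right, Fin.val_castAdd,
      Fin.val_natAdd] at h
    exact ((WW_inr _ _).2 h.symm).symm
  · rw [finSumFinEquiv_apply_right, finSumFinEquiv_apply_right, Fin.val_natAdd,
      Fin.val_natAdd] at h
    exact (WW_inr _ _).2 h

theorem tur_ncard (g w u d c : ℕ) : (SimpleGraph.turanGraph (u + d) c).edgeSet.ncard ≤
    (WW (Set.univ : Set (BE g w)) (Hg g w u d c)).edgeSet.ncard := by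
  rw [← Set.ncard_image_of_injective (f := Sym2.map (tur (g := g) (w := w)))
    (SimpleGraph.turanGraph (u + d) c).edgeSet (Sym2.map.injective tur_inj)]
  apply Set.ncard_le_ncard _ (Set.toFinite _)
  rintro _ ⟨e, he, rfl⟩
  induction e using Sym2.ind with
  | _ x y => exact tur_adj x y he

theorem turan_step (N a c : ℕ) : (SimpleGraph.turanGraph (N + a) c).edgeSet.ncard ≤
    (SimpleGraph.turanGraph N c).edgeSet.ncard + a * (N + a) := by
  have hsub : (SimpleGraph.turanGraph (N + a) c).edgeSet ⊆
      Sym2.map (Fin.castAdd a) '' (SimpleGraph.turanGraph N c).edgeSet ∪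
      (fun p : Fin a × Fin (N + a) => s(Fin.natAdd N p.1, p.2)) '' Set.univ := by
    intro e he
    induction e using Sym2.ind with
    | _ x y =>
    obtain ⟨x', rfl⟩ := finSumFinEquiv.surjective x
    obtain ⟨y', rfl⟩ := finSumFinEquiv.surjective y
    rcases x' with x | x
    · rcases y' with y | y
      · left
        refine ⟨s(x, y), ?_, rfl⟩
        exact he
      · right
        refine ⟨(y, Fin.castAdd a x), Set.mem_univ _, ?_⟩
        exact Sym2.eq_swap
    · right
      exact ⟨(x, finSumFinEquiv y'), Set.mem_univ _, rfl⟩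
  calc (SimpleGraph.turanGraph (N + a) c).edgeSet.ncard
      ≤ (Sym2.map (Fin.castAdd a) '' (SimpleGraph.turanGraph N c).edgeSet ∪
          (fun p : Fin a × Fin (N + a) => s(Fin.natAdd N p.1, p.2)) '' Set.univ).ncard :=
        Set.ncard_le_ncard hsub (Set.toFinite _)
    _ ≤ _ := Set.ncard_union_le _ _
    _ ≤ (SimpleGraph.turanGraph N c).edgeSet.ncard + (Set.univ : Set (Fin a × Fin (N + a))).ncard :=
        Nat.add_le_add (Set.ncard_image_le (Set.toFinite _)) (Set.ncard_image_le (Set.toFinite _))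
    _ = _ := by
        rw [Set.ncard_univ, Nat.card_eq_fintype_card, Fintype.card_prod, Fintype.card_fin,
          Fintype.card_fin]

theorem ncard_edgeSet_eq {V : Type} [Fintype V] (G : SimpleGraph V) [Fintype G.edgeSet] :
    G.edgeSet.ncard = G.edgeFinset.card := by
  rw [← SimpleGraph.coe_edgeFinset, Set.ncard_coe_finset]

theorem extremal_eq (n k : ℕ) (hk : 2 ≤ k) :
    SimpleGraph.extremalNumber n (⊤ : SimpleGraph (Fin k)) =
      (SimpleGraph.turanGraph n (k - 1)).edgeSet.ncard := by
  have : Nontrivial (Fin k) := Fin.nontrivial_iff_two_le.2 hk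
  rw [SimpleGraph.extremalNumber_top, ncard_edgeSet_eq, Fintype.card_fin]

/-- There are enough optional edges. -/
theorem full_ncard (n k g w u d : ℕ) (hk : 2 ≤ k) (hn : u + d + 2 * (g * w) = n) :
    SimpleGraph.extremalNumber n (⊤ : SimpleGraph (Fin k)) ≤
      (WW (Set.univ : Set (BE g w)) (Hg g w u d (k - 1))).edgeSet.ncard + 2 * (g * w) * n := by
  subst hn
  rw [extremal_eq _ k hk]
  exact (turan_step _ _ _).trans (Nat.add_le_add_right (tur_ncard g w u d (k - 1)) _)

/-- The structured part has few edges. -/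
theorem HH_ncard_le (g w u : ℕ) (z : Set (BE g w)) :
    (HH (p := 1) (u := u) fun _ => z).edgeSet.ncard ≤ (u + 2 * (g * w)).choose 2 := by
  rw [ncard_edgeSet_eq]
  refine (SimpleGraph.card_edgeFinset_le_card_choose_two).trans (le_of_eq ?_)
  congr 1
  simp only [Fintype.card_sum, Fintype.card_prod, Fintype.card_fin]
  ring

/-! ### Transfer to labelled graphs -/

/-- The padded graph on `Fin n`. -/
def Γ {g w u d n : ℕ} (ι : VV g w u d ≃ Fin n) (z : Set (BE g w))
    (D : SimpleGraph (VV g w u d)) : SimpleGraph (Fin n) := (WW z D).comap ι.symm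

theorem Γ_mono {g w u d n : ℕ} (ι : VV g w u d ≃ Fin n) {z z' : Set (BE g w)}
    {D D' : SimpleGraph (VV g w u d)} (hz : z ⊆ z') (hD : D ≤ D') : Γ ι z D ≤ Γ ι z' D' :=
  fun _ _ h => WW_mono hz hD h

theorem Γ_leaf {g w u d n c : ℕ} (ι : VV g w u d ≃ Fin n) {D : SimpleGraph (VV g w u d)}
    (hD : D ≤ Hg g w u d c) (a b : Fin n) : Leaf fun z => (Γ ι z D).Adj a b :=
  WW_leaf hD (ι.symm a) (ι.symm b)

theorem Γ_ncard {g w u d n c : ℕ} (ι : VV g w u d ≃ Fin n) (z : Set (BE g w))
    {D : SimpleGraph (VV g w u d)} (hD : D ≤ Hg g w u d c) : (Γ ι z D).edgeSet.ncard =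
      (HH (p := 1) (u := u) fun _ => (∅ : Set (BE g w))).edgeSet.ncard + z.ncard +
        D.edgeSet.ncard := by
  rw [← WW_ncard z hD, ← Nat.card_coe_set_eq, ← Nat.card_coe_set_eq]
  exact Nat.card_congr (SimpleGraph.Iso.comap ι.symm (WW z D)).mapEdgeSet

theorem Γ_clique {g w u d n c : ℕ} (hg : 1 ≤ g) (hc : c + 1 = u + 2 * g)
    (ι : VV g w u d ≃ Fin n) {z : Set (BE g w)}
    {D : SimpleGraph (VV g w u d)} (hD : D ≤ Hg g w u d c) :
    (∃ S : Finset (Fin n), (Γ ι z D).IsClique (S : Set (Fin n)) ∧ u + 2 * g ≤ S.card) ↔ TC z := by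
  rw [← WW_clique hg hc hD]
  constructor
  · rintro ⟨S, hS, hcard⟩
    refine ⟨S.map ι.symm.toEmbedding, ?_, by rw [card_map]; exact hcard⟩
    intro a ha b hb hab
    rw [mem_coe, mem_map] at ha hb
    obtain ⟨a, ha, rfl⟩ := ha
    obtain ⟨b, hb, rfl⟩ := hb
    exact hS ha hb fun h => hab (by rw [h])
  · rintro ⟨S, hS, hcard⟩
    refine ⟨S.map ι.toEmbedding, ?_, by rw [card_map]; exact hcard⟩
    intro a ha b hb hab
    rw [mem_coe, mem_map] at ha hb
    obtain ⟨a, ha, rfl⟩ := ha
    obtain ⟨b, hb, rfl⟩ := hb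
    change (WW z D).Adj (ι.symm (ι a)) (ι.symm (ι b))
    rw [Equiv.symm_apply_apply, Equiv.symm_apply_apply]
    exact hS ha hb fun h => hab (by rw [h])

end Pool.Agent.T9h36
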