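import Pool.Agent.T9h36.Oracle

set_option autoImplicit false

/-!
# Monotone advice together with antitone oracles
-/

namespace Pool.Agent.T9h36

open Pool.Agent.T9h16 Pool.Agent.T9h35
open scoped Classical

theorem SLPFor_iUnion {E : Type} {R : ℕ} {O : Fin R → Set (Set E → Prop)} {s : Fin R → ℕ}
    (h : ∀ i, SLPFor (O i) (s i)) : SLPFor (⋃ i, O i) (∑ i, s i) := by
  induction R with
  | zero =>
    refine SLPFor.empty.mono ?_ (Nat.zero_le _)
    intro o ho
    obtain ⟨i, -⟩ := Set.mem_iUnion.1 ho
    exact i.elim0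
  | succ R ih =>
    have h1 := (ih fun i : Fin R => h i.castSucc).union (h (Fin.last R))
    refine h1.mono ?_ ?_
    · intro o ho
      obtain ⟨i, hi⟩ := Set.mem_iUnion.1 ho
      induction i using Fin.lastCases with
      | last => exact Or.inr hi
      | cast i => exact Or.inl (Set.mem_iUnion.2 ⟨i, hi⟩)
    · rw [Fin.sum_univ_castSucc]

/-- Extraction of a block with a monotone index `h` and antitone oracles `a`. -/
theorem extract_both {ι E : Type} [Fintype ι] [DecidableEq ι] {R t : ℕ}
    (h : (ι → Set E) → Finset (Fin R)) (hmono : ∀ y y', (∀ i, y i ⊆ y' i) → h y ⊆ h y')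
    (a : (ι → Set E) → Finset (Fin t)) (hanti : ∀ y y', (∀ i, y i ⊆ y' i) → a y' ⊆ a y)
    (T : Set E → Prop) (hT0 : ¬ T ∅)
    (P : Finset (Fin R) → Finset (Fin t) → (ι → Set E) → Prop)
    (hPm : ∀ v b b' y, b ⊆ b' → P v b y → P v b' y)
    (hP : ∀ y, P (h y) (a y) y ↔ ∃ i, T (y i)) (hRt : R + t < Fintype.card ι) :
    ∃ (i : ι) (y : ι → Set E), ∀ z, (T z ↔ (P (h y) (a y) (Function.update y i z) ∨
      ∃ r ∉ h y, r ∈ h (Function.update y i z))) := by
  by_contra hcon
  push Not at hcon
  have key : ∀ m ≤ Fintype.card ι, ∃ (J : Finset ι) (y : ι → Set E), J.card = m ∧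
      (∀ j ∉ J, y j = ∅) ∧ (∀ j, ¬ T (y j)) ∧ (a y).card + m ≤ t + (h y).card := by
    intro m
    induction m with
    | zero =>
      intro _
      refine ⟨∅, fun _ => ∅, rfl, fun _ _ => rfl, fun _ => hT0, ?_⟩
      have := Finset.card_le_univ (a fun _ => ∅)
      rw [Fintype.card_fin] at this
      omega
    | succ m ih =>
      intro hm
      obtain ⟨J, y, hJ, hy0, hyT, hle⟩ := ih (by omega)
      obtain ⟨i, hi⟩ : ∃ i, i ∉ J := by
        by_contra hall
        push Not at hall
        have : J = Finset.univ := Finset.eq_univ_iff_forall.2 hall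
        rw [this, Finset.card_univ] at hJ
        omega
      obtain ⟨z, hz⟩ := hcon i y
      have hle' : ∀ j, y j ⊆ Function.update y i z j := by
        intro j
        by_cases hji : j = i
        · subst hji
          rw [hy0 j hi]
          exact Set.empty_subset _
        · rw [Function.update_of_ne hji]
      have hsub : a (Function.update y i z) ⊆ a y := hanti _ _ hle'
      have hsub' : h y ⊆ h (Function.update y i z) := hmono _ _ hle'
      have hupd : ∀ j, j ≠ i → Function.update y i z j = y j := fun j hj =>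
        Function.update_of_ne hj _ _
      rcases hz with ⟨hTz, hnP, hnr⟩ | ⟨hTz, hor⟩
      · exfalso
        have heq : h (Function.update y i z) = h y := by
          apply Finset.Subset.antisymm _ hsub'
          intro r hr
          by_contra hrn
          exact hnr r hrn hr
        apply hnP
        rw [← heq]
        apply hPm _ _ _ _ hsub
        exact (hP _).2 ⟨i, by rw [Function.update_self]; exact hTz⟩
      · have hTn : ∀ j, ¬ T (Function.update y i z j) := by
          intro j
          by_cases hji : j = i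
          · subst hji
            rw [Function.update_self]
            exact hTz
          · rw [hupd j hji]
            exact hyT j
        have hc1 := Finset.card_le_card hsub
        have hc2 := Finset.card_le_card hsub'
        have hne : (a (Function.update y i z)).card + (h y).card <
            (a y).card + (h (Function.update y i z)).card := by
          by_contra hcc
          have hha : a (Function.update y i z) = a y :=
            Finset.eq_of_subset_of_card_le hsub (by omega)
          have hhh : h y = h (Function.update y i z) :=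
            Finset.eq_of_subset_of_card_le hsub' (by omega)
          rcases hor with hP' | ⟨r, hr1, hr2⟩
          · rw [hhh, ← hha] at hP'
            obtain ⟨j, hj⟩ := (hP _).1 hP'
            exact hTn j hj
          · rw [hhh] at hr1
            exact hr1 hr2
        refine ⟨insert i J, Function.update y i z, ?_, ?_, hTn, by omega⟩
        · rw [Finset.card_insert_of_notMem hi, hJ]
        · intro j hj
          rw [Finset.mem_insert, not_or] at hj
          rw [hupd j hj.1]
          exact hy0 j hj.2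
  obtain ⟨J, y, -, -, -, hle⟩ := key _ le_rfl
  have h1 : (h y).card ≤ R := by
    have := Finset.card_le_univ (h y)
    rwa [Fintype.card_fin] at this
  omega

/-- The main step: below `p ^ 2` advice bits and antitone oracles together are useless. -/
theorem both_core (n k p r R t : ℕ) (hr : 2 ≤ r) (hk : 2 * GG r ≤ k)
    (hn : 2 * (p * (GG r * (2 * r))) + (k - 2 * GG r) ≤ n)
    (H : Fin R → OracleCircuit n 0) (D : Set (Fin R) → OracleCircuit n t)
    (hs : ∀ v, ∑ i, (H i).size + (D v).size ≤ 2 ^ r)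
    (O : Fin t → SimpleGraph (Fin n) → Prop) (hO : ∀ j G G', G ≤ G' → O j G' → O j G)
    (hcl : ∀ G : SimpleGraph (Fin n), (D {i | (H i).Accepts G ∅}).Accepts G {j | O j G} ↔
      ∃ c : Finset (Fin n), G.IsClique (c : Set (Fin n)) ∧ k ≤ c.card) :
    p * p ≤ R + t := by
  by_contra hcon
  rw [not_le] at hcon
  have hg1 : 1 ≤ GG r := (two_le_GG r hr).trans' (by norm_num)
  obtain ⟨G, hGm, hGl, hGc⟩ := grid n k p (GG r) (2 * r) hg1 hk hn
  have hHm : ∀ (a : Fin R) (G G' : SimpleGraph (Fin n)), G ≤ G' → (H a).Accepts G ∅ →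
      (H a).Accepts G' ∅ := by
    intro a G G' hGG h
    rw [← OracleCircuit.freeze_accepts] at h ⊢
    exact MonoCircuit.mono _ hGG h
  obtain ⟨i, y, hiy⟩ := extract_both (ι := Fin p × Fin p) (E := BE (GG r) (2 * r)) (R := R) (t := t)
    (fun y => Finset.univ.filter fun i => (H i).Accepts (G y) ∅)
    (by
      intro y y' hy a ha
      rw [Finset.mem_filter] at ha ⊢
      exact ⟨ha.1, hHm a _ _ (hGm y y' hy) ha.2⟩)
    (fun y => Finset.univ.filter fun j => O j (G y))
    (by
      intro y y' hy j hj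
      rw [Finset.mem_filter] at hj ⊢
      exact ⟨hj.1, hO j _ _ (hGm y y' hy) hj.2⟩)
    TC (not_TC_empty hg1)
    (fun v b y => (D (v : Set (Fin R))).Accepts (G y) (b : Set (Fin t)))
    (fun v b b' y hbb h => (D (v : Set (Fin R))).mono_oracle (by exact_mod_cast hbb) h)
    (by
      intro y
      have e : ((Finset.univ.filter fun j => O j (G y) : Finset (Fin t)) :
          Set (Fin t)) = {j | O j (G y)} := by
        ext a; simp
      have e' : ((Finset.univ.filter fun i => (H i).Accepts (G y) ∅ : Finset (Fin R)) :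
          Set (Fin R)) = {i | (H i).Accepts (G y) ∅} := by
        ext a; simp
      rw [e, e', hcl, hGc])
    (by simpa [Fintype.card_prod, Fintype.card_fin] using hcon)
  set v : Finset (Fin R) := Finset.univ.filter fun i => (H i).Accepts (G y) ∅ with hv
  set b : Finset (Fin t) := Finset.univ.filter fun j => O j (G y) with hb
  have hleaf : ∀ a b, Leaf fun z => (G (Function.update y i z)).Adj a b := by
    intro a b
    rcases hGl a b with ⟨q, hq⟩ | ⟨i', e, he⟩
    · exact Or.inr ⟨q, fun z => hq _⟩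
    · by_cases hii : i' = i
      · refine Or.inl ⟨e, fun z => ?_⟩
        show (G (Function.update y i z)).Adj a b ↔ _
        rw [he, hii, Function.update_self]
      · refine Or.inr ⟨e ∈ y i', fun z => ?_⟩
        show (G (Function.update y i z)).Adj a b ↔ _
        rw [he, Function.update_of_ne hii]
  have h1 : SLPFor {fun z => ((D (v : Set (Fin R))).freeze (b : Set (Fin t))).Accepts
      (G (Function.update y i z))} (D (v : Set (Fin R))).size :=
    (((D (v : Set (Fin R))).freeze (b : Set (Fin t))).slp _ hleaf).mono subset_rfl (by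
      rw [OracleCircuit.freeze_size])
  have h2 : SLPFor (⋃ a : Fin R, {fun z => ((H a).freeze ∅).Accepts
      (G (Function.update y i z))}) (∑ a, (H a).size) :=
    SLPFor_iUnion fun a => (((H a).freeze ∅).slp _ hleaf).mono subset_rfl (by
      rw [OracleCircuit.freeze_size])
  set Q : Set (Set (BE (GG r) (2 * r)) → Prop) :=
    {fun z => ((D (v : Set (Fin R))).freeze (b : Set (Fin t))).Accepts
      (G (Function.update y i z))} ∪
      {o | ∃ a ∉ v, o = fun z => ((H a).freeze ∅).Accepts (G (Function.update y i z))} with hQ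
  have h3 : SLPFor Q (2 ^ r) := by
    refine (h1.union h2).mono ?_ ?_
    · apply Set.union_subset_union_right
      rintro o ⟨a, -, rfl⟩
      exact Set.mem_iUnion.2 ⟨a, rfl⟩
    · rw [add_comm]
      exact hs _
  obtain ⟨gt, hgt, hav⟩ := h3
  refine hard r hr _ le_rfl gt hgt Q hav ?_ ?_
  · intro z hz
    rcases (hiy z).1 hz with h | ⟨a, ha, h⟩
    · exact ⟨_, Or.inl rfl, (OracleCircuit.freeze_accepts _ _ _).2 h⟩
    · rw [Finset.mem_filter] at h
      exact ⟨_, Or.inr ⟨a, ha, rfl⟩, (OracleCircuit.freeze_accepts _ _ _).2 h.2⟩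
  · intro z hz o ho hoz
    apply hz
    rw [hiy z]
    rcases ho with rfl | ⟨a, ha, rfl⟩
    · exact Or.inl ((OracleCircuit.freeze_accepts _ _ _).1 hoz)
    · refine Or.inr ⟨a, ha, ?_⟩
      rw [Finset.mem_filter]
      exact ⟨Finset.mem_univ _, (OracleCircuit.freeze_accepts _ _ _).1 hoz⟩

/-- The quantitative theorem. -/
theorem both_main (n k R t S : ℕ) (H : Fin R → OracleCircuit n 0)
    (D : Set (Fin R) → OracleCircuit n t)
    (hS : ∀ v, ∑ i, (H i).size + (D v).size ≤ S)
    (O : Fin t → SimpleGraph (Fin n) → Prop) (hO : ∀ j G G', G ≤ G' → O j G' → O j G)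
    (hcl : ∀ G : SimpleGraph (Fin n), (D {i | (H i).Accepts G ∅}).Accepts G {j | O j G} ↔
      ∃ c : Finset (Fin n), G.IsClique (c : Set (Fin n)) ∧ k ≤ c.card)
    (hk : 2000000 * (Nat.log 2 (S + 1) + 1) ^ 3 ≤ k) :
    (n - k) ^ 2 ≤ 2000000 * (R + t + 1) * (Nat.log 2 (S + 1) + 1) ^ 7 := by
  obtain ⟨l, hl⟩ : ∃ l, l = Nat.log 2 (S + 1) + 1 := ⟨_, rfl⟩
  rw [← hl] at hk ⊢
  have hl1 : 1 ≤ l := by omega
  obtain ⟨r, hr⟩ : ∃ r, r = l + 1 := ⟨_, rfl⟩
  have hr2 : 2 ≤ r := by omega
  have hsize : S ≤ 2 ^ r := by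
    have : S + 1 < 2 ^ l := by
      rw [hl]
      exact Nat.lt_pow_succ_log_self (by norm_num) _
    calc S ≤ 2 ^ l := by omega
      _ ≤ 2 ^ r := Nat.pow_le_pow_right (by norm_num) (by omega)
  have hrl : r ≤ 2 * l := by omega
  have hLL := LL_lin r (by omega)
  have hLL2 := LL_sq r (by omega)
  have hGk : 2 * GG r ≤ k := by
    refine le_trans ?_ hk
    rw [GG]
    calc 2 * (4 * r ^ 2 * LL r) ≤ 2 * (4 * r ^ 2 * (25 * r)) := by
          apply Nat.mul_le_mul_left
          exact Nat.mul_le_mul_left _ hLL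
      _ = 200 * r ^ 3 := by ring
      _ ≤ 200 * (2 * l) ^ 3 := Nat.mul_le_mul_left _ (Nat.pow_le_pow_left hrl 3)
      _ = 1600 * l ^ 3 := by ring
      _ ≤ 2000000 * l ^ 3 := Nat.mul_le_mul_right _ (by norm_num)
  by_cases hnk : n ≤ k
  · have : n - k = 0 := by omega
    rw [this]
    simp
  rw [not_le] at hnk
  obtain ⟨W, hW⟩ : ∃ W, W = 2 * (GG r * (2 * r)) := ⟨_, rfl⟩
  have hW1 : 0 < W := by
    have := two_le_GG r hr2
    rw [hW]
    positivity
  obtain ⟨p, hp⟩ : ∃ p, p = (n - k) / W := ⟨_, rfl⟩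
  have hpn : p * W ≤ n - k := by
    rw [hp]
    exact Nat.div_mul_le_self _ _
  have hfit : 2 * (p * (GG r * (2 * r))) + (k - 2 * GG r) ≤ n := by
    have : 2 * (p * (GG r * (2 * r))) = p * W := by rw [hW]; ring
    omega
  have hpR := both_core n k p r R t hr2 hGk hfit H D (fun v => (hS v).trans hsize) O hO hcl
  have hlt : n - k < W * (p + 1) := by
    rw [hp]
    exact Nat.lt_mul_div_succ _ hW1
  have h4 : (p + 1) ^ 2 ≤ 2 * (R + t + 1) := by nlinarith [sq_nonneg ((p : ℤ) - 1)]
  have h5 : W ^ 2 ≤ 256 * 25 * r ^ 7 := by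
    calc W ^ 2 = 256 * r ^ 6 * (LL r) ^ 2 := by rw [hW, GG]; ring
      _ ≤ 256 * r ^ 6 * (25 * r) := Nat.mul_le_mul_left _ hLL2
      _ = 256 * 25 * r ^ 7 := by ring
  calc (n - k) ^ 2 ≤ (W * (p + 1)) ^ 2 := Nat.pow_le_pow_left hlt.le 2
    _ = W ^ 2 * (p + 1) ^ 2 := by ring
    _ ≤ (256 * 25 * r ^ 7) * (2 * (R + t + 1)) := Nat.mul_le_mul h5 h4
    _ ≤ (256 * 25 * (2 * l) ^ 7) * (2 * (R + t + 1)) := by
        apply Nat.mul_le_mul_right
        exact Nat.mul_le_mul_left _ (Nat.pow_le_pow_left hrl 7)
    _ = 1638400 * (R + t + 1) * l ^ 7 := by ring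
    _ ≤ 2000000 * (R + t + 1) * l ^ 7 := by
        apply Nat.mul_le_mul_right
        exact Nat.mul_le_mul_right _ (by norm_num)

end Pool.Agent.T9h36
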