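import Pool.Agent.T9h35.Advice

set_option autoImplicit false

namespace Pool.Agent.T9h36

open Pool.Agent.T9h16 Pool.Agent.T9h35
open scoped Classical

/-- A wire of a monotone circuit whose input is a graph on `n` vertices and which may use the
answers of `t` oracles: an edge variable, the answer of an oracle, a constant, or the output of the
gate with number `k`. -/
inductive Wire (n t : ℕ) : Type
  | edge (i j : Fin n) : Wire n t
  | oracle (j : Fin t) : Wire n t
  | const (b : Bool) : Wire n t
  | gate (k : ℕ) : Wire n t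

/-- An AND gate (`isAnd = true`) or an OR gate (`isAnd = false`) with two input wires. -/
structure Gate (n t : ℕ) : Type where
  isAnd : Bool
  left : Wire n t
  right : Wire n t

/-- A monotone circuit whose inputs are the edge variables of a graph on `n` vertices and the
answers of `t` oracles: a list of AND and OR gates, in the order in which they are evaluated, and
an output wire.  There are no NOT gates. -/
structure OracleCircuit (n t : ℕ) : Type where
  gates : List (Gate n t)
  output : Wire n t

/-- The value of a wire on the graph `G` if the oracles in the set `A` answer 1, given the list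
`vs` of the values of the gates evaluated so far (a gate that has not been evaluated yet counts as
false). -/
def Wire.value {n t : ℕ} (G : SimpleGraph (Fin n)) (A : Set (Fin t)) (vs : List Prop) :
    Wire n t → Prop
  | .edge i j => G.Adj i j
  | .oracle j => j ∈ A
  | .const b => b = true
  | .gate k => vs.getD k False

/-- The value of a gate, given the list `vs` of the values of the earlier gates. -/
def Gate.value {n t : ℕ} (G : SimpleGraph (Fin n)) (A : Set (Fin t)) (vs : List Prop)
    (g : Gate n t) : Prop :=
  if g.isAnd then g.left.value G A vs ∧ g.right.value G A vs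
  else g.left.value G A vs ∨ g.right.value G A vs

/-- Evaluate the gates of a list one after the other, appending their values to `vs`. -/
def run {n t : ℕ} (G : SimpleGraph (Fin n)) (A : Set (Fin t)) :
    List (Gate n t) → List Prop → List Prop
  | [], vs => vs
  | g :: gs, vs => run G A gs (vs ++ [g.value G A vs])

/-- The number of gates of a circuit. -/
def OracleCircuit.size {n t : ℕ} (C : OracleCircuit n t) : ℕ := C.gates.length

/-- The circuit outputs 1 on the graph `G` if the oracles in the set `A` answer 1. -/
def OracleCircuit.Accepts {n t : ℕ} (C : OracleCircuit n t) (G : SimpleGraph (Fin n))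
    (A : Set (Fin t)) : Prop :=
  C.output.value G A (run G A C.gates [])

/-! ### Reduction to circuits without oracles -/

/-- Replace the oracle answers by constants. -/
noncomputable def Wire.freeze {n t : ℕ} (A : Set (Fin t)) : Wire n t → T9h35.Wire n
  | .edge i j => .edge i j
  | .oracle j => .const (decide (j ∈ A))
  | .const b => .const b
  | .gate k => .gate k

noncomputable def Gate.freeze {n t : ℕ} (A : Set (Fin t)) (g : Gate n t) : T9h35.Gate n where
  isAnd := g.isAnd
  left := g.left.freeze A
  right := g.right.freeze A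

noncomputable def OracleCircuit.freeze {n t : ℕ} (A : Set (Fin t)) (C : OracleCircuit n t) :
    MonoCircuit n where
  gates := C.gates.map (Gate.freeze A)
  output := C.output.freeze A

theorem Wire.freeze_value {n t : ℕ} (G : SimpleGraph (Fin n)) (A : Set (Fin t))
    (vs : List Prop) (w : Wire n t) : (w.freeze A).value G vs = w.value G A vs := by
  cases w with
  | edge i j => rfl
  | oracle j => simp [Wire.freeze, T9h35.Wire.value, Wire.value]
  | const b => rfl
  | gate k => rfl

theorem Gate.freeze_value {n t : ℕ} (G : SimpleGraph (Fin n)) (A : Set (Fin t))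
    (vs : List Prop) (g : Gate n t) : (g.freeze A).value G vs = g.value G A vs := by
  unfold T9h35.Gate.value Gate.value
  simp only [Gate.freeze, Wire.freeze_value]

theorem run_freeze {n t : ℕ} (G : SimpleGraph (Fin n)) (A : Set (Fin t))
    (gs : List (Gate n t)) (vs : List Prop) :
    T9h35.run G (gs.map (Gate.freeze A)) vs = run G A gs vs := by
  induction gs generalizing vs with
  | nil => rfl
  | cons g gs ih => rw [List.map_cons, T9h35.run, run, ih, Gate.freeze_value]

theorem OracleCircuit.freeze_accepts {n t : ℕ} (C : OracleCircuit n t) (G : SimpleGraph (Fin n))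
    (A : Set (Fin t)) : (C.freeze A).Accepts G ↔ C.Accepts G A := by
  unfold MonoCircuit.Accepts OracleCircuit.Accepts
  simp only [OracleCircuit.freeze, run_freeze, Wire.freeze_value]

theorem OracleCircuit.freeze_size {n t : ℕ} (C : OracleCircuit n t) (A : Set (Fin t)) :
    (C.freeze A).size = C.size := by
  unfold MonoCircuit.size OracleCircuit.size
  simp [OracleCircuit.freeze]

/-! ### Monotonicity in the oracle answers -/

theorem wire_mono' {n t : ℕ} {G : SimpleGraph (Fin n)} {A A' : Set (Fin t)} (hA : A ⊆ A')
    {vs vs' : List Prop} (hvs : ∀ k, vs.getD k False → vs'.getD k False) (w : Wire n t)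
    (h : w.value G A vs) : w.value G A' vs' := by
  cases w with
  | edge i j => exact h
  | oracle j => exact hA h
  | const b => exact h
  | gate k => exact hvs k h

theorem gate_mono' {n t : ℕ} {G : SimpleGraph (Fin n)} {A A' : Set (Fin t)} (hA : A ⊆ A')
    {vs vs' : List Prop} (hvs : ∀ k, vs.getD k False → vs'.getD k False) (g : Gate n t)
    (h : g.value G A vs) : g.value G A' vs' := by
  unfold Gate.value at h ⊢
  split_ifs at h ⊢ with hb
  · exact ⟨wire_mono' hA hvs _ h.1, wire_mono' hA hvs _ h.2⟩
  · rcases h with h | h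
    · exact Or.inl (wire_mono' hA hvs _ h)
    · exact Or.inr (wire_mono' hA hvs _ h)

theorem run_mono' {n t : ℕ} {G : SimpleGraph (Fin n)} {A A' : Set (Fin t)} (hA : A ⊆ A')
    (gs : List (Gate n t)) {vs vs' : List Prop} (hl : vs.length = vs'.length)
    (hvs : ∀ k, vs.getD k False → vs'.getD k False) :
    ∀ k, (run G A gs vs).getD k False → (run G A' gs vs').getD k False := by
  induction gs generalizing vs vs' with
  | nil => exact hvs
  | cons g gs ih =>
    rw [run, run]
    apply ih
    · simp [hl]
    · intro k hk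
      rcases lt_trichotomy k vs.length with hlt | heq | hgt
      · rw [List.getD_append _ _ _ _ hlt] at hk
        rw [List.getD_append _ _ _ _ (hl ▸ hlt)]
        exact hvs k hk
      · subst heq
        rw [List.getD_append_right _ _ _ _ le_rfl] at hk
        rw [hl, List.getD_append_right _ _ _ _ le_rfl]
        simp only [Nat.sub_self, List.getD_cons_zero] at hk ⊢
        exact gate_mono' hA hvs g hk
      · exfalso
        rw [List.getD_eq_default _ _ (by simp; omega)] at hk
        exact hk

theorem OracleCircuit.mono_oracle {n t : ℕ} (C : OracleCircuit n t) {G : SimpleGraph (Fin n)}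
    {A A' : Set (Fin t)} (hA : A ⊆ A') (h : C.Accepts G A) : C.Accepts G A' :=
  wire_mono' hA (run_mono' hA C.gates rfl fun _ h => h) _ h

/-! ### Extraction of a block -/

/-- If the disjunction of more than `t` disjoint copies of `T` is decided by a predicate that is
monotone in the value of an antitone map into the subsets of `Fin t`, then some copy is decided by
this predicate with one fixed value. -/
theorem extract_antitone {ι E : Type} [Fintype ι] [DecidableEq ι] {t : ℕ}
    (a : (ι → Set E) → Finset (Fin t)) (hanti : ∀ y y', (∀ i, y i ⊆ y' i) → a y' ⊆ a y)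
    (T : Set E → Prop) (hT0 : ¬ T ∅) (P : Finset (Fin t) → (ι → Set E) → Prop)
    (hPm : ∀ v v' y, v ⊆ v' → P v y → P v' y)
    (hP : ∀ y, P (a y) y ↔ ∃ i, T (y i)) (ht : t < Fintype.card ι) :
    ∃ (i : ι) (y : ι → Set E), ∀ z, (T z ↔ P (a y) (Function.update y i z)) := by
  by_contra hcon
  push Not at hcon
  have key : ∀ m ≤ Fintype.card ι, ∃ (J : Finset ι) (y : ι → Set E), J.card = m ∧
      (∀ j ∉ J, y j = ∅) ∧ (∀ j, ¬ T (y j)) ∧ (a y).card + m ≤ t := by
    intro m
    induction m with
    | zero =>
      intro _
      refine ⟨∅, fun _ => ∅, rfl, fun _ _ => rfl, fun _ => hT0, ?_⟩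
      have := Finset.card_le_univ (a fun _ => ∅)
      rwa [Fintype.card_fin] at this
    | succ m ih =>
      intro hm
      obtain ⟨J, y, hJ, hy0, hyT, hle⟩ := ih (by omega)
      obtain ⟨i, hi⟩ : ∃ i, i ∉ J := by
        by_contra hall
        push Not at hall
        have : J = Finset.univ := Finset.eq_univ_iff_forall.2 hall
        rw [this, Finset.card_univ] at hJ
        omega
      obtain ⟨z, hz⟩ := hcon i y
      have hsub : a (Function.update y i z) ⊆ a y := by
        apply hanti
        intro j
        by_cases hji : j = i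
        · subst hji
          rw [hy0 j hi]
          exact Set.empty_subset _
        · rw [Function.update_of_ne hji]
      have hupd : ∀ j, j ≠ i → Function.update y i z j = y j := fun j hj =>
        Function.update_of_ne hj _ _
      rcases hz with ⟨hTz, hnP⟩ | ⟨hTz, hPz⟩
      · exfalso
        apply hnP
        apply hPm _ _ _ hsub
        exact (hP _).2 ⟨i, by rw [Function.update_self]; exact hTz⟩
      · have hTn : ∀ j, ¬ T (Function.update y i z j) := by
          intro j
          by_cases hji : j = i
          · subst hji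
            rw [Function.update_self]
            exact hTz
          · rw [hupd j hji]
            exact hyT j
        have hne : a (Function.update y i z) ≠ a y := by
          intro heq
          rw [← heq] at hPz
          obtain ⟨j, hj⟩ := (hP _).1 hPz
          exact hTn j hj
        have hlt : (a (Function.update y i z)).card < (a y).card :=
          Finset.card_lt_card (Finset.ssubset_iff_subset_ne.2 ⟨hsub, hne⟩)
        refine ⟨insert i J, Function.update y i z, ?_, ?_, hTn, by omega⟩
        · rw [Finset.card_insert_of_notMem hi, hJ]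
        · intro j hj
          rw [Finset.mem_insert, not_or] at hj
          rw [hupd j hj.1]
          exact hy0 j hj.2
  obtain ⟨J, y, -, -, -, hle⟩ := key _ le_rfl
  omega

/-- The main step: below `p ^ 2` antitone oracles are useless for a monotone circuit. -/
theorem core (n k p r t s : ℕ) (hr : 2 ≤ r) (hk : 2 * GG r ≤ k)
    (hn : 2 * (p * (GG r * (2 * r))) + (k - 2 * GG r) ≤ n) (hs : s ≤ 2 ^ r)
    (C : OracleCircuit n t) (hC : C.size ≤ s)
    (O : Fin t → SimpleGraph (Fin n) → Prop) (hO : ∀ j G G', G ≤ G' → O j G' → O j G)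
    (hcl : ∀ G : SimpleGraph (Fin n), C.Accepts G {j | O j G} ↔
      ∃ c : Finset (Fin n), G.IsClique (c : Set (Fin n)) ∧ k ≤ c.card) :
    p * p ≤ t := by
  by_contra hcon
  rw [not_le] at hcon
  have hg1 : 1 ≤ GG r := (two_le_GG r hr).trans' (by norm_num)
  obtain ⟨G, hGm, hGl, hGc⟩ := grid n k p (GG r) (2 * r) hg1 hk hn
  obtain ⟨i, y, hiy⟩ := extract_antitone (ι := Fin p × Fin p) (E := BE (GG r) (2 * r)) (t := t)
    (fun y => Finset.univ.filter fun j => O j (G y))
    (by
      intro y y' hy j hj
      rw [Finset.mem_filter] at hj ⊢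
      exact ⟨hj.1, hO j _ _ (hGm y y' hy) hj.2⟩)
    TC (not_TC_empty hg1) (fun v y => C.Accepts (G y) (v : Set (Fin t)))
    (fun v v' y hvv h => C.mono_oracle (by exact_mod_cast hvv) h)
    (by
      intro y
      have e : ((Finset.univ.filter fun j => O j (G y) : Finset (Fin t)) :
          Set (Fin t)) = {j | O j (G y)} := by
        ext a; simp
      rw [e, hcl, hGc])
    (by simpa [Fintype.card_prod, Fintype.card_fin] using hcon)
  set v : Finset (Fin t) := Finset.univ.filter fun j => O j (G y) with hv
  have hleaf : ∀ a b, Leaf fun z => (G (Function.update y i z)).Adj a b := by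
    intro a b
    rcases hGl a b with ⟨q, hq⟩ | ⟨i', e, he⟩
    · exact Or.inr ⟨q, fun z => hq _⟩
    · by_cases hii : i' = i
      · refine Or.inl ⟨e, fun z => ?_⟩
        show (G (Function.update y i z)).Adj a b ↔ _
        rw [he, hii, Function.update_self]
      · refine Or.inr ⟨e ∈ y i', fun z => ?_⟩
        show (G (Function.update y i z)).Adj a b ↔ _
        rw [he, Function.update_of_ne hii]
  have h1 : SLPFor {fun z => (C.freeze (v : Set (Fin t))).Accepts (G (Function.update y i z))} s :=
    ((C.freeze (v : Set (Fin t))).slp _ hleaf).mono subset_rfl (by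
      rw [OracleCircuit.freeze_size]; exact hC)
  obtain ⟨gt, hgt, hav⟩ := h1
  refine hard r hr _ hs gt hgt _ hav ?_ ?_
  · intro z hz
    exact ⟨_, rfl, (C.freeze_accepts _ _).2 ((hiy z).1 hz)⟩
  · rintro z hz o rfl hoz
    exact hz ((hiy z).2 ((C.freeze_accepts _ _).1 hoz))

/-- The quantitative theorem. -/
theorem main (n k t s : ℕ) (C : OracleCircuit n t) (hC : C.size ≤ s)
    (O : Fin t → SimpleGraph (Fin n) → Prop) (hO : ∀ j G G', G ≤ G' → O j G' → O j G)
    (hcl : ∀ G : SimpleGraph (Fin n), C.Accepts G {j | O j G} ↔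
      ∃ c : Finset (Fin n), G.IsClique (c : Set (Fin n)) ∧ k ≤ c.card)
    (hk : 2000000 * (Nat.log 2 (s + 1) + 1) ^ 3 ≤ k) :
    (n - k) ^ 2 ≤ 2000000 * (t + 1) * (Nat.log 2 (s + 1) + 1) ^ 7 := by
  obtain ⟨l, hl⟩ : ∃ l, l = Nat.log 2 (s + 1) + 1 := ⟨_, rfl⟩
  rw [← hl] at hk ⊢
  have hl1 : 1 ≤ l := by omega
  obtain ⟨r, hr⟩ : ∃ r, r = l + 1 := ⟨_, rfl⟩
  have hr2 : 2 ≤ r := by omega
  have hsize : s ≤ 2 ^ r := by
    have : s + 1 < 2 ^ l := by
      rw [hl]
      exact Nat.lt_pow_succ_log_self (by norm_num) _
    calc s ≤ 2 ^ l := by omega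
      _ ≤ 2 ^ r := Nat.pow_le_pow_right (by norm_num) (by omega)
  have hrl : r ≤ 2 * l := by omega
  have hLL := LL_lin r (by omega)
  have hLL2 := LL_sq r (by omega)
  have hGk : 2 * GG r ≤ k := by
    refine le_trans ?_ hk
    rw [GG]
    calc 2 * (4 * r ^ 2 * LL r) ≤ 2 * (4 * r ^ 2 * (25 * r)) := by
          apply Nat.mul_le_mul_left
          exact Nat.mul_le_mul_left _ hLL
      _ = 200 * r ^ 3 := by ring
      _ ≤ 200 * (2 * l) ^ 3 := Nat.mul_le_mul_left _ (Nat.pow_le_pow_left hrl 3)
      _ = 1600 * l ^ 3 := by ring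
      _ ≤ 2000000 * l ^ 3 := Nat.mul_le_mul_right _ (by norm_num)
  by_cases hnk : n ≤ k
  · have : n - k = 0 := by omega
    rw [this]
    simp
  rw [not_le] at hnk
  obtain ⟨W, hW⟩ : ∃ W, W = 2 * (GG r * (2 * r)) := ⟨_, rfl⟩
  have hW1 : 0 < W := by
    have := two_le_GG r hr2
    rw [hW]
    positivity
  obtain ⟨p, hp⟩ : ∃ p, p = (n - k) / W := ⟨_, rfl⟩
  have hpn : p * W ≤ n - k := by
    rw [hp]
    exact Nat.div_mul_le_self _ _
  have hfit : 2 * (p * (GG r * (2 * r))) + (k - 2 * GG r) ≤ n := by
    have : 2 * (p * (GG r * (2 * r))) = p * W := by rw [hW]; ring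
    omega
  have hpR := core n k p r t s hr2 hGk hfit hsize C hC O hO hcl
  have hlt : n - k < W * (p + 1) := by
    rw [hp]
    exact Nat.lt_mul_div_succ _ hW1
  have h4 : (p + 1) ^ 2 ≤ 2 * (t + 1) := by nlinarith [sq_nonneg ((p : ℤ) - 1)]
  have h5 : W ^ 2 ≤ 256 * 25 * r ^ 7 := by
    calc W ^ 2 = 256 * r ^ 6 * (LL r) ^ 2 := by rw [hW, GG]; ring
      _ ≤ 256 * r ^ 6 * (25 * r) := Nat.mul_le_mul_left _ hLL2
      _ = 256 * 25 * r ^ 7 := by ring
  calc (n - k) ^ 2 ≤ (W * (p + 1)) ^ 2 := Nat.pow_le_pow_left hlt.le 2
    _ = W ^ 2 * (p + 1) ^ 2 := by ring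
    _ ≤ (256 * 25 * r ^ 7) * (2 * (t + 1)) := Nat.mul_le_mul h5 h4
    _ ≤ (256 * 25 * (2 * l) ^ 7) * (2 * (t + 1)) := by
        apply Nat.mul_le_mul_right
        exact Nat.mul_le_mul_left _ (Nat.pow_le_pow_left hrl 7)
    _ = 1638400 * (t + 1) * l ^ 7 := by ring
    _ ≤ 2000000 * (t + 1) * l ^ 7 := by
        apply Nat.mul_le_mul_right
        exact Nat.mul_le_mul_right _ (by norm_num)

end Pool.Agent.T9h36
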