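import Pool.Agent.T9h16.Hard

set_option autoImplicit false
set_option linter.unusedSectionVars false

/-!
# The block function on two slices

The lower bound of `Pool.Agent.T9h16.Hard` for the block function `TC`, with positive tests that
all have exactly `g ^ 2` true variables and negative tests that all have exactly `g ^ 2` false
variables.
-/

namespace Pool.Agent.T9h36

open Finset
open Pool.Agent.T9h16
open scoped Classical

section
variable {I E Ω : Type} [Fintype I] [Fintype E] [Fintype Ω] [DecidableEq I] [DecidableEq E]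
  (w A c ℓ : ℕ) (a b : E → I × Fin w) (Z : Ω → E → Prop)

/-- `h` has a pair of approximators, correct outside of the error sets. -/
def Apx (PE : Finset (I → Fin w)) (NE : Finset Ω) (h : Set E → Prop) : Prop :=
  ∃ (𝒲 : Set (Finset (I × Fin w))) (𝒞 : Set (Finset E)),
    (∀ W ∈ 𝒲, W.card ≤ ℓ) ∧ (∀ F ∈ 𝒞, F.card ≤ c) ∧ (∀ W ∈ 𝒲, ∀ F ∈ 𝒞, Hit a b F W) ∧
    (∀ φ, φ ∉ PE → h (posT a b φ) → ∃ W ∈ 𝒲, ∀ v ∈ W, φ v.1 = v.2) ∧
    (∀ χ, χ ∉ NE → ¬ h {e | ¬ Z χ e} → ∃ F ∈ 𝒞, ∀ e ∈ F, Z χ e)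

variable {w A c ℓ a b Z}

theorem Apx.mono {PE PE' : Finset (I → Fin w)} {NE NE' : Finset Ω}
    {h : Set E → Prop} (hP : PE ⊆ PE') (hN : NE ⊆ NE') (H : Apx w c ℓ a b Z PE NE h) :
    Apx w c ℓ a b Z PE' NE' h := by
  obtain ⟨𝒲, 𝒞, h1, h2, h3, h4, h5⟩ := H
  exact ⟨𝒲, 𝒞, h1, h2, h3, fun φ hφ => h4 φ (fun h => hφ (hP h)),
    fun χ hχ => h5 χ (fun h => hχ (hN h))⟩

theorem Apx.congr {PE : Finset (I → Fin w)} {NE : Finset Ω}
    {h h' : Set E → Prop} (hh : ∀ z, h' z ↔ h z) (H : Apx w c ℓ a b Z PE NE h) :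
    Apx w c ℓ a b Z PE NE h' := by
  obtain ⟨𝒲, 𝒞, h1, h2, h3, h4, h5⟩ := H
  exact ⟨𝒲, 𝒞, h1, h2, h3, fun φ hφ h => h4 φ hφ ((hh _).1 h),
    fun χ hχ h => h5 χ hχ (fun h' => h ((hh _).2 h'))⟩

theorem apx_leaf (hℓ : 2 ≤ ℓ) (hc : 1 ≤ c) {h : Set E → Prop} (hh : Leaf h) :
    Apx w c ℓ a b Z ∅ ∅ h := by
  rcases hh with ⟨e, he⟩ | ⟨t, ht⟩
  · refine ⟨{{a e, b e}}, {{e}}, ?_, ?_, ?_, ?_, ?_⟩
    · rintro W rfl
      exact (card_le_two).trans hℓ
    · rintro F rfl
      simpa using hc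
    · rintro W rfl F rfl
      exact ⟨e, by simp, by simp, by simp⟩
    · intro φ _ hφ
      refine ⟨_, rfl, ?_⟩
      have := (he _).1 hφ
      intro v hv
      rw [mem_insert, mem_singleton] at hv
      rcases hv with rfl | rfl
      · exact this.1
      · exact this.2
    · intro χ _ hχ
      refine ⟨_, rfl, ?_⟩
      intro e' he'
      rw [mem_singleton] at he'
      subst he'
      rw [he] at hχ
      simpa using hχ
  · by_cases t
    case pos htt =>
      refine ⟨{∅}, ∅, ?_, ?_, ?_, ?_, ?_⟩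
      · rintro W rfl; simp
      · intro F hF; exact hF.elim
      · intro W _ F hF; exact hF.elim
      · intro φ _ _
        exact ⟨∅, rfl, by simp⟩
      · intro χ _ hχ
        exact (hχ ((ht _).2 htt)).elim
    case neg htt =>
      refine ⟨∅, {∅}, ?_, ?_, ?_, ?_, ?_⟩
      · intro F hF; exact hF.elim
      · rintro W rfl; simp
      · intro W hW; exact hW.elim
      · intro φ _ hφ
        exact (htt ((ht _).1 hφ)).elim
      · intro χ _ _
        exact ⟨∅, rfl, by simp⟩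

theorem apx_and (hw : 1 ≤ w) (hc : 1 ≤ c) {PE : Finset (I → Fin w)}
    {NE : Finset Ω} {p q : Set E → Prop}
    (hp : Apx w c ℓ a b Z PE NE p) (hq : Apx w c ℓ a b Z PE NE q) :
    ∃ D : Finset (I → Fin w), D.card * w ^ (ℓ + 1) ≤ c ^ (ℓ + 1) * Fintype.card (I → Fin w) ∧
      Apx w c ℓ a b Z (PE ∪ D) NE (fun z => p z ∧ q z) := by
  obtain ⟨𝒲₁, 𝒞₁, h1, h2, h3, h4, h5⟩ := hp
  obtain ⟨𝒲₂, 𝒞₂, k1, k2, k3, k4, k5⟩ := hq
  set R : Set (Finset (Finset (I × Fin w))) :=
    {r | ∃ F ∈ 𝒞₁ ∪ 𝒞₂, r = F.image fun e => {a e, b e}} with hR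
  have hRc : ∀ r ∈ R, r.card ≤ c := by
    rintro r ⟨F, hF, rfl⟩
    refine card_image_le.trans ?_
    rcases hF with hF | hF
    · exact h2 F hF
    · exact k2 F hF
  have hbr := branching (Ω := I → Fin w) (X := I × Fin w) (fun φ v => φ v.1 = v.2) w c ℓ hw hc
    (fun Y => by convert card_prescribed w Y) R hRc
  refine ⟨_, hbr, ?_⟩
  refine ⟨{W | W.card ≤ ℓ ∧ ∀ F ∈ 𝒞₁ ∪ 𝒞₂, Hit a b F W}, 𝒞₁ ∪ 𝒞₂, fun W hW => hW.1, ?_,
    fun W hW F hF => hW.2 F hF, ?_, ?_⟩
  · rintro F (hF | hF)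
    · exact h2 F hF
    · exact k2 F hF
  · rintro φ hφ ⟨hpz, hqz⟩
    rw [notMem_union] at hφ
    obtain ⟨W₁, hW₁, hφ₁⟩ := h4 φ hφ.1 hpz
    obtain ⟨W₂, hW₂, hφ₂⟩ := k4 φ hφ.1 hqz
    have hD := hφ.2
    simp only [mem_filter, mem_univ, true_and, not_and, not_forall, not_exists] at hD
    have hsat : ∀ r ∈ R, ∃ O ∈ r, ∀ v ∈ O, φ v.1 = v.2 := by
      rintro r ⟨F, hF, rfl⟩
      rcases hF with hF | hF
      · obtain ⟨e, he, hae, hbe⟩ := h3 W₁ hW₁ F hF
        refine ⟨_, mem_image_of_mem _ he, ?_⟩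
        intro v hv
        rw [mem_insert, mem_singleton] at hv
        rcases hv with rfl | rfl
        · exact hφ₁ _ hae
        · exact hφ₁ _ hbe
      · obtain ⟨e, he, hae, hbe⟩ := k3 W₂ hW₂ F hF
        refine ⟨_, mem_image_of_mem _ he, ?_⟩
        intro v hv
        rw [mem_insert, mem_singleton] at hv
        rcases hv with rfl | rfl
        · exact hφ₂ _ hae
        · exact hφ₂ _ hbe
    obtain ⟨Y, hYc, hYφ, hY⟩ := hD hsat
    refine ⟨Y, ⟨hYc, ?_⟩, hYφ⟩
    intro F hF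
    obtain ⟨O, hO, hOY⟩ := hY (F.image fun e => {a e, b e}) ⟨F, hF, rfl⟩
    rw [not_not] at hOY
    rw [mem_image] at hO
    obtain ⟨e, he, rfl⟩ := hO
    exact ⟨e, he, hOY (by simp), hOY (by simp)⟩
  · intro χ hχ hnot
    rw [not_and_or] at hnot
    rcases hnot with hnot | hnot
    · obtain ⟨F, hF, hFχ⟩ := h5 χ hχ hnot
      exact ⟨F, Or.inl hF, hFχ⟩
    · obtain ⟨F, hF, hFχ⟩ := k5 χ hχ hnot
      exact ⟨F, Or.inr hF, hFχ⟩

theorem apx_or (hA : 1 ≤ A) (hℓ : 1 ≤ ℓ)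
    (hZ : ∀ Y : Finset E, (univ.filter fun χ : Ω => ∀ e ∈ Y, Z χ e).card * A ^ Y.card
      ≤ Fintype.card Ω)
    (hinj : ∀ e e', a e = a e' → b e = b e' → e = e') {PE : Finset (I → Fin w)}
    {NE : Finset Ω} {p q : Set E → Prop}
    (hp : Apx w c ℓ a b Z PE NE p) (hq : Apx w c ℓ a b Z PE NE q) :
    ∃ D : Finset Ω, D.card * A ^ (c + 1) ≤ (ℓ ^ 2) ^ (c + 1) * Fintype.card Ω ∧
      Apx w c ℓ a b Z PE (NE ∪ D) (fun z => p z ∨ q z) := by
  obtain ⟨𝒲₁, 𝒞₁, h1, h2, h3, h4, h5⟩ := hp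
  obtain ⟨𝒲₂, 𝒞₂, k1, k2, k3, k4, k5⟩ := hq
  set R : Set (Finset (Finset E)) :=
    {r | ∃ W ∈ 𝒲₁ ∪ 𝒲₂, r = (univ.filter fun e => a e ∈ W ∧ b e ∈ W).image fun e => {e}} with hR
  have hWc : ∀ W ∈ 𝒲₁ ∪ 𝒲₂, W.card ≤ ℓ := by
    rintro W (hW | hW)
    · exact h1 W hW
    · exact k1 W hW
  have hRc : ∀ r ∈ R, r.card ≤ ℓ ^ 2 := by
    rintro r ⟨W, hW, rfl⟩
    refine card_image_le.trans ?_
    have : (univ.filter fun e => a e ∈ W ∧ b e ∈ W).card ≤ (W ×ˢ W).card := by
      apply card_le_card_of_injOn (fun e => (a e, b e))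
      · intro e he
        simp only [coe_filter, mem_univ, true_and, Set.mem_ofPred_eq] at he
        simp [he.1, he.2]
      · intro e _ e' _ hee
        exact hinj e e' (Prod.ext_iff.1 hee).1 (Prod.ext_iff.1 hee).2
    refine this.trans ?_
    rw [card_product, sq]
    exact Nat.mul_le_mul (hWc W hW) (hWc W hW)
  have hbr := branching (Ω := Ω) (X := E) Z A (ℓ ^ 2) c hA
    (Nat.pow_pos hℓ) (fun Y => by convert hZ Y) R hRc
  refine ⟨_, hbr, ?_⟩
  refine ⟨𝒲₁ ∪ 𝒲₂, {F | F.card ≤ c ∧ ∀ W ∈ 𝒲₁ ∪ 𝒲₂, Hit a b F W}, hWc, fun F hF => hF.1,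
    fun W hW F hF => hF.2 W hW, ?_, ?_⟩
  · rintro φ hφ (h | h)
    · obtain ⟨W, hW, hWφ⟩ := h4 φ hφ h
      exact ⟨W, Or.inl hW, hWφ⟩
    · obtain ⟨W, hW, hWφ⟩ := k4 φ hφ h
      exact ⟨W, Or.inr hW, hWφ⟩
  · intro χ hχ hnot
    rw [not_or] at hnot
    rw [notMem_union] at hχ
    obtain ⟨F₁, hF₁, hχ₁⟩ := h5 χ hχ.1 hnot.1
    obtain ⟨F₂, hF₂, hχ₂⟩ := k5 χ hχ.1 hnot.2
    have hD := hχ.2
    simp only [mem_filter, mem_univ, true_and, not_and, not_forall, not_exists] at hD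
    have hsat : ∀ r ∈ R, ∃ O ∈ r, ∀ e ∈ O, Z χ e := by
      rintro r ⟨W, hW, rfl⟩
      rcases hW with hW | hW
      · obtain ⟨e, he, hae, hbe⟩ := h3 W hW F₁ hF₁
        refine ⟨{e}, mem_image_of_mem _ (by simp [hae, hbe]), ?_⟩
        intro e' he'
        rw [mem_singleton] at he'
        subst he'
        exact hχ₁ _ he
      · obtain ⟨e, he, hae, hbe⟩ := k3 W hW F₂ hF₂
        refine ⟨{e}, mem_image_of_mem _ (by simp [hae, hbe]), ?_⟩
        intro e' he'
        rw [mem_singleton] at he'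
        subst he'
        exact hχ₂ _ he
    obtain ⟨Y, hYc, hYχ, hY⟩ := hD hsat
    refine ⟨Y, ⟨hYc, ?_⟩, hYχ⟩
    intro W hW
    obtain ⟨O, hO, hOY⟩ := hY _ ⟨W, hW, rfl⟩
    rw [not_not] at hOY
    rw [mem_image] at hO
    obtain ⟨e, he, rfl⟩ := hO
    simp only [mem_filter, mem_univ, true_and] at he
    exact ⟨e, hOY (by simp), he.1, he.2⟩

/-- Approximation of a whole straight-line program. -/
theorem apx_slp (hw : 1 ≤ w) (hA : 1 ≤ A) (hℓ : 2 ≤ ℓ) (hc : 1 ≤ c)
    (hZ : ∀ Y : Finset E, (univ.filter fun χ : Ω => ∀ e ∈ Y, Z χ e).card * A ^ Y.card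
      ≤ Fintype.card Ω)
    (hinj : ∀ e e', a e = a e' → b e = b e' → e = e') (g : ℕ → Set E → Prop) (s : ℕ)
    (hg : IsSLP g s) :
    ∃ (PE : Finset (I → Fin w)) (NE : Finset Ω),
      PE.card * w ^ (ℓ + 1) ≤ s * (c ^ (ℓ + 1) * Fintype.card (I → Fin w)) ∧
      NE.card * A ^ (c + 1) ≤ s * ((ℓ ^ 2) ^ (c + 1) * Fintype.card Ω) ∧
      ∀ i < s, Apx w c ℓ a b Z PE NE (g i) := by
  induction s with
  | zero => exact ⟨∅, ∅, by simp, by simp, by intro i hi; omega⟩
  | succ s ih =>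
    obtain ⟨PE, NE, hPE, hNE, happ⟩ := ih (fun i hi => hg i (by omega))
    have havail : ∀ p, Avail g s p → Apx w c ℓ a b Z PE NE p := by
      rintro p (hp | ⟨j, hj, hp⟩)
      · exact (apx_leaf hℓ hc hp).mono (by simp) (by simp)
      · exact (happ j hj).congr hp
    rcases hg s (by omega) with hleaf | ⟨p, q, hp, hq, hgs⟩
    · refine ⟨PE, NE, hPE.trans (Nat.mul_le_mul_right _ (by omega)),
        hNE.trans (Nat.mul_le_mul_right _ (by omega)), ?_⟩
      intro i hi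
      rcases Nat.lt_succ_iff_lt_or_eq.1 hi with hi | rfl
      · exact happ i hi
      · exact (apx_leaf hℓ hc hleaf).mono (by simp) (by simp)
    · rcases hgs with hgs | hgs
      · obtain ⟨D, hD, hap⟩ := apx_and hw hc (havail p hp) (havail q hq)
        refine ⟨PE ∪ D, NE, ?_, hNE.trans (Nat.mul_le_mul_right _ (by omega)), ?_⟩
        · calc (PE ∪ D).card * w ^ (ℓ + 1) ≤ (PE.card + D.card) * w ^ (ℓ + 1) :=
                Nat.mul_le_mul_right _ (card_union_le _ _)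
            _ = PE.card * w ^ (ℓ + 1) + D.card * w ^ (ℓ + 1) := by ring
            _ ≤ s * (c ^ (ℓ + 1) * Fintype.card (I → Fin w)) +
                c ^ (ℓ + 1) * Fintype.card (I → Fin w) := Nat.add_le_add hPE hD
            _ = (s + 1) * (c ^ (ℓ + 1) * Fintype.card (I → Fin w)) := by ring
        · intro i hi
          rcases Nat.lt_succ_iff_lt_or_eq.1 hi with hi | rfl
          · exact (happ i hi).mono subset_union_left (by simp)
          · exact hap.congr hgs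
      · obtain ⟨D, hD, hap⟩ := apx_or hA (by omega) hZ hinj (havail p hp) (havail q hq)
        refine ⟨PE, NE ∪ D, hPE.trans (Nat.mul_le_mul_right _ (by omega)), ?_, ?_⟩
        · calc (NE ∪ D).card * A ^ (c + 1) ≤ (NE.card + D.card) * A ^ (c + 1) :=
                Nat.mul_le_mul_right _ (card_union_le _ _)
            _ = NE.card * A ^ (c + 1) + D.card * A ^ (c + 1) := by ring
            _ ≤ s * ((ℓ ^ 2) ^ (c + 1) * Fintype.card Ω) +
                (ℓ ^ 2) ^ (c + 1) * Fintype.card Ω := Nat.add_le_add hNE hD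
            _ = (s + 1) * ((ℓ ^ 2) ^ (c + 1) * Fintype.card Ω) := by ring
        · intro i hi
          rcases Nat.lt_succ_iff_lt_or_eq.1 hi with hi | rfl
          · exact (happ i hi).mono (by simp) subset_union_left
          · exact hap.congr hgs

end

/-! ### Random sets of a fixed size -/

theorem choose_step_zero (m u A y : ℕ) (hm : A * u ≤ m) (hA : 1 ≤ A) :
    (m - y - 1).choose (u - y - 1) * A ≤ (m - y).choose (u - y) ∨ u ≤ y := by
  by_cases hy : u ≤ y
  · exact Or.inr hy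
  left
  rw [not_le] at hy
  have hum : u ≤ m := le_trans (Nat.le_mul_of_pos_left u hA) hm
  obtain ⟨v, hv⟩ : ∃ v, u - y = v + 1 := ⟨u - y - 1, by omega⟩
  obtain ⟨q, hq⟩ : ∃ q, m - y = q + 1 := ⟨m - y - 1, by omega⟩
  have h1 : m - y - 1 = q := by omega
  have h2 : u - y - 1 = v := by omega
  rw [h1, h2, hv, hq]
  have h3 := Nat.add_one_mul_choose_eq q v
  have h4 : A * (v + 1) ≤ q + 1 := by
    rw [← hv, ← hq, Nat.mul_sub]
    have : y ≤ A * y := Nat.le_mul_of_pos_left y hA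
    omega
  have h5 : (q.choose v * A) * (v + 1) ≤ (q + 1).choose (v + 1) * (v + 1) := by
    rw [← h3]
    calc (q.choose v * A) * (v + 1) = (A * (v + 1)) * q.choose v := by ring
      _ ≤ (q + 1) * q.choose v := Nat.mul_le_mul_right _ h4
  exact Nat.le_of_mul_le_mul_right h5 (Nat.succ_pos v)

theorem choose_step_one (m u A y : ℕ) (hm : m ≤ A * u) :
    (m - y - 1).choose u * A ≤ (A - 1) * (m - y).choose u ∨ m ≤ y := by
  by_cases hy : m ≤ y
  · exact Or.inr hy
  left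
  rw [not_le] at hy
  obtain ⟨q, hq⟩ : ∃ q, m - y = q + 1 := ⟨m - y - 1, by omega⟩
  have h1 : m - y - 1 = q := by omega
  rw [h1, hq]
  by_cases hu : u ≤ q
  · have h3 : (q + 1) * q.choose u = (q + 1).choose u * (q + 1 - u) := by
      have := Nat.choose_mul_succ_eq q u
      rw [mul_comm, this]
    have h4 : (q + 1 - u) * A ≤ (A - 1) * (q + 1) := by
      rcases A with _ | A
      · simp
      · simp only [Nat.add_sub_cancel]
        have : q + 1 ≤ (A + 1) * u := by omega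
        zify [show u ≤ q + 1 by omega]
        have h' : ((q : ℤ) + 1) ≤ (A + 1) * u := by exact_mod_cast this
        nlinarith
    have h5 : (q.choose u * A) * (q + 1) ≤ ((A - 1) * (q + 1).choose u) * (q + 1) := by
      calc (q.choose u * A) * (q + 1) = ((q + 1) * q.choose u) * A := by ring
        _ = ((q + 1).choose u * (q + 1 - u)) * A := by rw [h3]
        _ = (q + 1).choose u * ((q + 1 - u) * A) := by ring
        _ ≤ (q + 1).choose u * ((A - 1) * (q + 1)) := Nat.mul_le_mul_left _ h4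
        _ = _ := by ring
    exact Nat.le_of_mul_le_mul_right h5 (Nat.succ_pos q)
  · rw [Nat.choose_eq_zero_of_lt (by omega)]
    simp

/-- The sets of `u` variables. -/
abbrev Sub (E : Type) [Fintype E] [DecidableEq E] (u : ℕ) : Type := {S : Finset E // S.card = u}

theorem card_sub {E : Type} [Fintype E] [DecidableEq E] (u : ℕ) :
    Fintype.card (Sub E u) = (Fintype.card E).choose u := by
  rw [Fintype.card_finset_len]

theorem card_super {E : Type} [Fintype E] [DecidableEq E] (u : ℕ) (Y : Finset E) :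
    (univ.filter fun χ : Sub E u => ∀ e ∈ Y, e ∈ χ.1).card ≤
      (Fintype.card E - Y.card).choose (u - Y.card) := by
  have h : (Fintype.card E - Y.card).choose (u - Y.card) =
      (powersetCard (u - Y.card) (univ \ Y)).card := by
    rw [card_powersetCard, card_sdiff_of_subset (subset_univ _), card_univ]
  rw [h]
  apply card_le_card_of_injOn (fun χ => χ.1 \ Y)
  · intro χ hχ
    simp only [coe_filter, mem_univ, true_and, Set.mem_ofPred_eq] at hχ
    rw [mem_coe, mem_powersetCard]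
    refine ⟨sdiff_subset_sdiff (subset_univ _) subset_rfl, ?_⟩
    rw [card_sdiff_of_subset hχ, χ.2]
  · intro χ hχ χ' hχ' h
    simp only [coe_filter, mem_univ, true_and, Set.mem_ofPred_eq] at hχ hχ'
    apply Subtype.ext
    have h1 : χ.1 = (χ.1 \ Y) ∪ Y := (sdiff_union_of_subset hχ).symm
    have h2 : χ'.1 = (χ'.1 \ Y) ∪ Y := (sdiff_union_of_subset hχ').symm
    have h' : χ.1 \ Y = χ'.1 \ Y := h
    rw [h1, h2, h']

theorem card_avoid {E : Type} [Fintype E] [DecidableEq E] (u : ℕ) (Y : Finset E) :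
    (univ.filter fun χ : Sub E u => ∀ e ∈ Y, e ∉ χ.1).card ≤
      (Fintype.card E - Y.card).choose u := by
  have h : (Fintype.card E - Y.card).choose u = (powersetCard u (univ \ Y)).card := by
    rw [card_powersetCard, card_sdiff_of_subset (subset_univ _), card_univ]
  rw [h]
  apply card_le_card_of_injOn (fun χ => χ.1)
  · intro χ hχ
    simp only [coe_filter, mem_univ, true_and, Set.mem_ofPred_eq] at hχ
    rw [mem_coe, mem_powersetCard]
    refine ⟨?_, χ.2⟩
    intro e he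
    rw [mem_sdiff]
    exact ⟨mem_univ _, fun h => hχ e h he⟩
  · intro χ _ χ' _ h
    exact Subtype.ext h

theorem card_zero' {E : Type} [Fintype E] [DecidableEq E] (A u : ℕ) (hA : 1 ≤ A)
    (hE : Fintype.card E = A * u) (Y : Finset E) :
    (univ.filter fun χ : Sub E u => ∀ e ∈ Y, e ∈ χ.1).card * A ^ Y.card
      ≤ Fintype.card (Sub E u) := by
  by_cases hY : Y.card ≤ u
  · refine (Nat.mul_le_mul_right _ (card_super u Y)).trans ?_
    rw [card_sub]
    generalize Y.card = y at *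
    induction y with
    | zero => simp
    | succ y ih =>
      refine le_trans ?_ (ih (by omega))
      rcases choose_step_zero (Fintype.card E) u A y hE.ge hA with h | h
      · rw [pow_succ]
        calc (Fintype.card E - (y + 1)).choose (u - (y + 1)) * (A ^ y * A)
            = ((Fintype.card E - y - 1).choose (u - y - 1) * A) * A ^ y := by
              rw [Nat.sub_sub, Nat.sub_sub]; ring
          _ ≤ _ := Nat.mul_le_mul_right _ h
      · omega
  · have : (univ.filter fun χ : Sub E u => ∀ e ∈ Y, e ∈ χ.1) = ∅ := by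
      rw [filter_eq_empty_iff]
      intro χ _ h
      have := card_le_card (show Y ⊆ χ.1 from h)
      rw [χ.2] at this
      omega
    rw [this]
    simp

theorem card_nonzero' {E : Type} [Fintype E] [DecidableEq E] (A u : ℕ)
    (hE : Fintype.card E = A * u) (Y : Finset E) :
    (univ.filter fun χ : Sub E u => ∀ e ∈ Y, e ∉ χ.1).card * A ^ Y.card
      ≤ (A - 1) ^ Y.card * Fintype.card (Sub E u) := by
  refine (Nat.mul_le_mul_right _ (card_avoid u Y)).trans ?_
  rw [card_sub]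
  have hY : Y.card ≤ Fintype.card E := card_le_univ Y
  generalize Y.card = y at *
  induction y with
  | zero => simp
  | succ y ih =>
    rcases choose_step_one (Fintype.card E) u A y hE.le with h | h
    · calc (Fintype.card E - (y + 1)).choose u * A ^ (y + 1)
          = ((Fintype.card E - y - 1).choose u * A) * A ^ y := by
            rw [Nat.sub_sub, pow_succ]; ring
        _ ≤ ((A - 1) * (Fintype.card E - y).choose u) * A ^ y := Nat.mul_le_mul_right _ h
        _ = (A - 1) * ((Fintype.card E - y).choose u * A ^ y) := by ring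
        _ ≤ (A - 1) * ((A - 1) ^ y * (Fintype.card E).choose u) :=
            Nat.mul_le_mul_left _ (ih (by omega))
        _ = (A - 1) ^ (y + 1) * (Fintype.card E).choose u := by ring
    · omega

/-! ### The block function -/

theorem ncard_posT {g w : ℕ} (φ : Fin g ⊕ Fin g → Fin w) :
    (posT (bl (g := g)) br φ).ncard = g ^ 2 := by
  have : posT (bl (g := g)) br φ =
      ((univ.image fun xy : Fin g × Fin g =>
        (((xy.1, φ (Sum.inl xy.1)), (xy.2, φ (Sum.inr xy.2))) : BE g w) : Finset (BE g w)) :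
        Set (BE g w)) := by
    ext e
    rcases e with ⟨⟨x, i⟩, ⟨y, j⟩⟩
    simp only [posT, bl, br, Set.mem_ofPred_eq, coe_image, coe_univ, Set.image_univ, Set.mem_range,
      Prod.mk.injEq, Prod.exists]
    constructor
    · rintro ⟨h1, h2⟩
      exact ⟨x, y, ⟨rfl, h1⟩, rfl, h2⟩
    · rintro ⟨x', y', ⟨h1, h2⟩, h3, h4⟩
      subst h1 h3
      exact ⟨h2, h4⟩
  rw [this, Set.ncard_coe_finset, card_image_of_injective, card_univ, Fintype.card_prod,
    Fintype.card_fin, sq]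
  rintro ⟨x, y⟩ ⟨x', y'⟩ h
  simp only [Prod.mk.injEq] at h
  exact Prod.ext h.1.1 h.2.1

theorem card_TC_le' {g w : ℕ} (A : ℕ) (hE : Fintype.card (BE g w) = A * g ^ 2) :
    (univ.filter fun χ : Sub (BE g w) (g ^ 2) => TC {e | e ∉ χ.1}).card * A ^ (g * g)
      ≤ w ^ (2 * g) * (A - 1) ^ (g * g) * Fintype.card (Sub (BE g w) (g ^ 2)) := by
  set Y : (Fin g → Fin w) × (Fin g → Fin w) → Finset (BE g w) := fun q =>
    univ.image fun xy : Fin g × Fin g => ((xy.1, q.1 xy.1), (xy.2, q.2 xy.2)) with hY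
  have hYc : ∀ q, (Y q).card = g * g := by
    intro q
    rw [hY, card_image_of_injective, card_univ, Fintype.card_prod, Fintype.card_fin]
    rintro ⟨x, y⟩ ⟨x', y'⟩ h
    simp only [Prod.mk.injEq] at h
    exact Prod.ext h.1.1 h.2.1
  have hsub : (univ.filter fun χ : Sub (BE g w) (g ^ 2) => TC {e | e ∉ χ.1}) ⊆
      (univ : Finset ((Fin g → Fin w) × (Fin g → Fin w))).biUnion
        (fun q => univ.filter fun χ : Sub (BE g w) (g ^ 2) => ∀ e ∈ Y q, e ∉ χ.1) := by
    intro χ hχ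
    simp only [mem_filter, mem_univ, true_and] at hχ
    obtain ⟨φ, ψ, h⟩ := hχ
    simp only [mem_biUnion, mem_univ, true_and, mem_filter]
    refine ⟨(φ, ψ), ?_⟩
    intro e he
    rw [hY, mem_image] at he
    obtain ⟨xy, -, rfl⟩ := he
    exact h xy.1 xy.2
  calc (univ.filter fun χ : Sub (BE g w) (g ^ 2) => TC {e | e ∉ χ.1}).card * A ^ (g * g)
      ≤ (∑ q : (Fin g → Fin w) × (Fin g → Fin w),
          (univ.filter fun χ : Sub (BE g w) (g ^ 2) => ∀ e ∈ Y q, e ∉ χ.1).card) *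
            A ^ (g * g) := by
        apply Nat.mul_le_mul_right
        exact (card_le_card hsub).trans card_biUnion_le
    _ = ∑ q : (Fin g → Fin w) × (Fin g → Fin w),
          (univ.filter fun χ : Sub (BE g w) (g ^ 2) => ∀ e ∈ Y q, e ∉ χ.1).card *
            A ^ (g * g) := by
        rw [sum_mul]
    _ ≤ ∑ q : (Fin g → Fin w) × (Fin g → Fin w),
          (A - 1) ^ (g * g) * Fintype.card (Sub (BE g w) (g ^ 2)) := by
        apply sum_le_sum
        intro q _
        have := card_nonzero' A (g ^ 2) hE (Y q)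
        rwa [hYc] at this
    _ = w ^ (2 * g) * (A - 1) ^ (g * g) * Fintype.card (Sub (BE g w) (g ^ 2)) := by
        rw [sum_const, smul_eq_mul, card_univ, Fintype.card_prod, Fintype.card_fun,
          Fintype.card_fin, Fintype.card_fin]
        ring

theorem card_sub_pos {E : Type} [Fintype E] [DecidableEq E] (A u : ℕ) (hA : 1 ≤ A)
    (hE : Fintype.card E = A * u) : 0 < Fintype.card (Sub E u) := by
  rw [card_sub, hE]
  exact Nat.choose_pos (Nat.le_mul_of_pos_left u hA)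

/-- Few sets with `g ^ 2` false variables satisfy the block function. -/
theorem card_TC_four' {g w A L : ℕ} (hA : 1 ≤ A) (hE : Fintype.card (BE g w) = A * g ^ 2)
    (hg : g = A * L) (hg2 : 2 ≤ g) (hL : w ^ 2 * 2 ≤ 2 ^ L) :
    (univ.filter fun χ : Sub (BE g w) (g ^ 2) => TC {e | e ∉ χ.1}).card * 4
      ≤ Fintype.card (Sub (BE g w) (g ^ 2)) := by
  have h1 := card_TC_le' (g := g) (w := w) A hE
  have h2 : (A - 1) ^ (g * g) * 2 ^ (L * g) ≤ A ^ (g * g) := by
    have : g * g = A * (L * g) := by rw [← mul_assoc, ← hg]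
    rw [this, pow_mul (A - 1) A (L * g), pow_mul A A (L * g), ← mul_pow]
    exact Nat.pow_le_pow_left (two_mul_pow_le A hA) _
  have h3 : w ^ (2 * g) * 4 ≤ 2 ^ (L * g) := by
    calc w ^ (2 * g) * 4 ≤ w ^ (2 * g) * 2 ^ g := by
          apply Nat.mul_le_mul_left
          calc 4 = 2 ^ 2 := rfl
            _ ≤ 2 ^ g := Nat.pow_le_pow_right (by norm_num) hg2
      _ = (w ^ 2 * 2) ^ g := by rw [mul_pow, pow_mul]
      _ ≤ (2 ^ L) ^ g := Nat.pow_le_pow_left hL _
      _ = 2 ^ (L * g) := by rw [pow_mul]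
  have hApos : 0 < A ^ (g * g) := Nat.pow_pos hA
  by_contra hcon
  rw [not_le] at hcon
  generalize Fintype.card (Sub (BE g w) (g ^ 2)) = N at *
  generalize (univ.filter fun χ : Sub (BE g w) (g ^ 2) => TC {e | e ∉ χ.1}).card = T at *
  have h4 : T * 4 * A ^ (g * g) * 2 ^ (L * g) ≤ N * A ^ (g * g) * 2 ^ (L * g) := by
    calc T * 4 * A ^ (g * g) * 2 ^ (L * g) = (T * A ^ (g * g)) * (4 * 2 ^ (L * g)) := by ring
      _ ≤ (w ^ (2 * g) * (A - 1) ^ (g * g) * N) * (4 * 2 ^ (L * g)) := Nat.mul_le_mul_right _ h1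
      _ = (w ^ (2 * g) * 4) * ((A - 1) ^ (g * g) * 2 ^ (L * g)) * N := by ring
      _ ≤ 2 ^ (L * g) * A ^ (g * g) * N := Nat.mul_le_mul_right _ (Nat.mul_le_mul h3 h2)
      _ = N * A ^ (g * g) * 2 ^ (L * g) := by ring
  have h5 : N * A ^ (g * g) * 2 ^ (L * g) < T * 4 * A ^ (g * g) * 2 ^ (L * g) := by
    apply Nat.mul_lt_mul_of_pos_right _ (by positivity)
    exact Nat.mul_lt_mul_of_pos_right hcon hApos
  omega

/-- The lower bound for the block function with a general family of negative tests. -/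
theorem hardΩ {Ω : Type} [Fintype Ω] (r g w A : ℕ) (Z : Ω → BE g w → Prop)
    (hr : 2 ≤ r) (hw : w = 2 * r) (hA : A = 4 * r ^ 2) (hΩ : 0 < Fintype.card Ω)
    (hZ : ∀ Y : Finset (BE g w), (univ.filter fun χ : Ω => ∀ e ∈ Y, Z χ e).card * A ^ Y.card
      ≤ Fintype.card Ω)
    (hT4 : (univ.filter fun χ : Ω => TC {e | ¬ Z χ e}).card * 4 ≤ Fintype.card Ω)
    (s : ℕ) (hs : s ≤ 2 ^ r)
    (gt : ℕ → Set (BE g w) → Prop) (hg : IsSLP gt s)
    (O : Set (Set (BE g w) → Prop)) (hO : ∀ o ∈ O, Avail gt s o)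
    (hpos : ∀ φ : Fin g ⊕ Fin g → Fin w, ∃ o ∈ O, o (posT (bl (g := g)) br φ))
    (hneg : ∀ χ : Ω, ¬ TC {e | ¬ Z χ e} → ∀ o ∈ O, ¬ o {e | ¬ Z χ e}) : False := by
  have hr0 : 0 < r := by omega
  have hr2 : 0 < r ^ 2 := by positivity
  have hw1 : 1 ≤ w := by omega
  have hA1 : 1 ≤ A := by omega
  have hinj : ∀ e e' : BE g w, bl e = bl e' → br e = br e' → e = e' := by
    rintro ⟨⟨x, i⟩, ⟨y, j⟩⟩ ⟨⟨x', i'⟩, ⟨y', j'⟩⟩ h1 h2
    simp only [bl, br, Prod.mk.injEq, Sum.inl.injEq, Sum.inr.injEq] at h1 h2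
    simp [h1.1, h1.2, h2.1, h2.2]
  obtain ⟨PE, NE, hPE, hNE, happ⟩ := apx_slp (w := w) (A := A) (c := r) (ℓ := r)
    (a := bl (g := g)) (b := br) (Z := Z) hw1 hA1 hr (by omega) hZ hinj gt s hg
  have hNΦ : 0 < Fintype.card (Fin g ⊕ Fin g → Fin w) := by
    rw [Fintype.card_fun, Fintype.card_fin]
    exact Nat.pow_pos hw1
  -- a positive test outside of the error set
  have hPElt : PE.card < Fintype.card (Fin g ⊕ Fin g → Fin w) := by
    clear hpos happ hneg hT4 hZ hg hO hinj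
    generalize Fintype.card (Fin g ⊕ Fin g → Fin w) = NΦ at *
    generalize PE.card = P at *
    by_contra hcon
    rw [not_lt] at hcon
    have h1 : NΦ * w ^ (r + 1) ≤ 2 ^ r * (r ^ (r + 1) * NΦ) :=
      (Nat.mul_le_mul_right _ hcon).trans (hPE.trans (Nat.mul_le_mul_right _ hs))
    have h2 : w ^ (r + 1) = 2 * (2 ^ r * r ^ (r + 1)) := by
      rw [hw, mul_pow]
      ring
    rw [h2] at h1
    have h3 : 0 < 2 ^ r * r ^ (r + 1) := by positivity
    nlinarith [Nat.mul_pos hNΦ h3]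
  obtain ⟨φ, hφ⟩ : ∃ φ, φ ∉ PE := by
    by_contra hcon
    push Not at hcon
    have : PE = univ := by
      ext φ; simp [hcon φ]
    rw [this, card_univ] at hPElt
    exact lt_irrefl _ hPElt
  obtain ⟨o, hoO, hoφ⟩ := hpos φ
  have hoapp : Apx w r r (bl (g := g)) br Z PE NE o := by
    rcases hO o hoO with ho | ⟨j, hj, ho⟩
    · exact (apx_leaf hr (by omega) ho).mono (by simp) (by simp)
    · exact (happ j hj).congr ho
  obtain ⟨𝒲, 𝒞, h1, h2, h3, h4, h5⟩ := hoapp
  obtain ⟨W, hW, -⟩ := h4 φ hφ hoφ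
  -- the three bad events for a negative test
  obtain ⟨B₁, hB₁⟩ : ∃ B₁, B₁ = univ.filter fun χ : Ω => TC {e | ¬ Z χ e} := ⟨_, rfl⟩
  obtain ⟨EW, hEW⟩ : ∃ EW, EW = univ.filter fun e : BE g w => bl e ∈ W ∧ br e ∈ W := ⟨_, rfl⟩
  obtain ⟨B₂, hB₂⟩ : ∃ B₂, B₂ = univ.filter fun χ : Ω => ∃ e ∈ EW, Z χ e := ⟨_, rfl⟩
  have hb1 : B₁.card * 4 ≤ Fintype.card Ω := by rw [hB₁]; exact hT4
  have hEWc : EW.card ≤ r ^ 2 := by
    have : EW.card ≤ (W ×ˢ W).card := by
      apply card_le_card_of_injOn (fun e => (bl e, br e))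
      · intro e he
        simp only [hEW, coe_filter, mem_univ, true_and, Set.mem_ofPred_eq] at he
        simp [he.1, he.2]
      · intro e _ e' _ hee
        exact hinj e e' (Prod.ext_iff.1 hee).1 (Prod.ext_iff.1 hee).2
    refine this.trans ?_
    rw [card_product, sq]
    exact Nat.mul_le_mul (h1 W hW) (h1 W hW)
  have hb2 : B₂.card * 4 ≤ Fintype.card Ω := by
    have hsub : B₂ ⊆ EW.biUnion fun e => univ.filter fun χ : Ω =>
        ∀ e' ∈ ({e} : Finset (BE g w)), Z χ e' := by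
      intro χ hχ
      simp only [hB₂, mem_filter, mem_univ, true_and] at hχ
      obtain ⟨e, he, hχe⟩ := hχ
      simp only [mem_biUnion, mem_filter, mem_univ, true_and, mem_singleton, forall_eq]
      exact ⟨e, he, hχe⟩
    have h6 : B₂.card * A ≤ r ^ 2 * Fintype.card Ω := by
      calc B₂.card * A ≤ (∑ e ∈ EW, (univ.filter fun χ : Ω =>
            ∀ e' ∈ ({e} : Finset (BE g w)), Z χ e').card) * A :=
            Nat.mul_le_mul_right _ ((card_le_card hsub).trans card_biUnion_le)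
        _ = ∑ e ∈ EW, (univ.filter fun χ : Ω =>
            ∀ e' ∈ ({e} : Finset (BE g w)), Z χ e').card * A := by rw [sum_mul]
        _ ≤ ∑ e ∈ EW, Fintype.card Ω := by
            apply sum_le_sum
            intro e _
            have := hZ ({e} : Finset (BE g w))
            rwa [card_singleton, pow_one] at this
        _ = EW.card * Fintype.card Ω := by rw [sum_const, smul_eq_mul]
        _ ≤ r ^ 2 * Fintype.card Ω := Nat.mul_le_mul_right _ hEWc
    have h7 : r ^ 2 * (B₂.card * 4) ≤ r ^ 2 * Fintype.card Ω := by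
      calc r ^ 2 * (B₂.card * 4) = B₂.card * A := by rw [hA]; ring
        _ ≤ _ := h6
    exact Nat.le_of_mul_le_mul_left h7 hr2
  have hb3 : NE.card * 4 ≤ Fintype.card Ω := by
    have h6 : NE.card * A ^ (r + 1) ≤ 2 ^ r * ((r ^ 2) ^ (r + 1) * Fintype.card Ω) :=
      hNE.trans (Nat.mul_le_mul_right _ hs)
    have h7 : A ^ (r + 1) = 4 * 4 ^ r * (r ^ 2) ^ (r + 1) := by
      rw [hA, mul_pow]
      ring
    rw [h7] at h6
    have h8 : (2 : ℕ) ^ r ≤ 4 ^ r := Nat.pow_le_pow_left (by norm_num) r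
    have h9 : 0 < (r ^ 2) ^ (r + 1) := Nat.pow_pos hr2
    have h10 : (4 ^ r * (r ^ 2) ^ (r + 1)) * (NE.card * 4) ≤
        (4 ^ r * (r ^ 2) ^ (r + 1)) * Fintype.card Ω := by
      calc (4 ^ r * (r ^ 2) ^ (r + 1)) * (NE.card * 4)
          = NE.card * (4 * 4 ^ r * (r ^ 2) ^ (r + 1)) := by ring
        _ ≤ 2 ^ r * ((r ^ 2) ^ (r + 1) * Fintype.card Ω) := h6
        _ ≤ 4 ^ r * ((r ^ 2) ^ (r + 1) * Fintype.card Ω) :=
            Nat.mul_le_mul_right _ h8
        _ = _ := by ring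
    exact Nat.le_of_mul_le_mul_left h10 (by positivity)
  obtain ⟨χ, hχ⟩ : ∃ χ, χ ∉ B₁ ∪ (B₂ ∪ NE) := by
    by_contra hcon
    push Not at hcon
    have h6 : B₁ ∪ (B₂ ∪ NE) = univ := by
      ext χ; simp only [mem_univ, iff_true]; exact hcon χ
    have h7 : Fintype.card Ω ≤ B₁.card + (B₂.card + NE.card) := by
      rw [← card_univ, ← h6]
      exact (card_union_le _ _).trans (Nat.add_le_add_left (card_union_le _ _) _)
    omega
  rw [notMem_union, notMem_union] at hχ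
  obtain ⟨hχ1, hχ2, hχ3⟩ := hχ
  have hT : ¬ TC {e | ¬ Z χ e} := by
    intro hT
    exact hχ1 (by rw [hB₁, mem_filter]; exact ⟨mem_univ _, hT⟩)
  obtain ⟨F, hF, hFχ⟩ := h5 χ hχ3 (hneg _ hT o hoO)
  obtain ⟨e, he, hae, hbe⟩ := h3 W hW F hF
  apply hχ2
  rw [hB₂, mem_filter]
  refine ⟨mem_univ _, e, ?_, hFχ e he⟩
  rw [hEW, mem_filter]
  exact ⟨mem_univ _, hae, hbe⟩

theorem ncard_compl_sub {E : Type} [Fintype E] [DecidableEq E] (u : ℕ) (χ : Sub E u) :
    ({e | e ∉ χ.1} : Set E)ᶜ.ncard = u := by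
  have : ({e | e ∉ χ.1} : Set E)ᶜ = (χ.1 : Set E) := by
    ext e
    simp only [Set.mem_compl_iff, Set.mem_ofPred_eq, not_not, mem_coe]
  rw [this, Set.ncard_coe_finset, χ.2]

theorem hard2_gen (r g w A : ℕ) (hr : 2 ≤ r) (hw : w = 2 * r) (hA : A = 4 * r ^ 2)
    (hE : Fintype.card (BE g w) = A * g ^ 2)
    (hT4 : (univ.filter fun χ : Sub (BE g w) (g ^ 2) => TC {e | e ∉ χ.1}).card * 4
      ≤ Fintype.card (Sub (BE g w) (g ^ 2))) (s : ℕ) (hs : s ≤ 2 ^ r)
    (gt : ℕ → Set (BE g w) → Prop) (hg : IsSLP gt s)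
    (O : Set (Set (BE g w) → Prop)) (hO : ∀ o ∈ O, Avail gt s o)
    (hpos : ∀ z, TC z → z.ncard = g ^ 2 → ∃ o ∈ O, o z)
    (hneg : ∀ z : Set (BE g w), ¬ TC z → zᶜ.ncard = g ^ 2 → ∀ o ∈ O, ¬ o z) : False := by
  have hA1 : 1 ≤ A := by
    rw [hA]
    have : 0 < r ^ 2 := by positivity
    omega
  refine hardΩ (Ω := Sub (BE g w) (g ^ 2)) r g w A (fun χ e => e ∈ χ.1) hr hw hA
    ?_ ?_ ?_ s hs gt hg O hO ?_ ?_
  · exact card_sub_pos A (g ^ 2) hA1 hE
  · intro Y
    convert card_zero' A (g ^ 2) hA1 hE Y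
  · convert hT4
  · exact fun φ => hpos _ (TC_posT φ) (ncard_posT φ)
  · exact fun χ hT => hneg _ hT (ncard_compl_sub (g ^ 2) χ)

theorem card_BE (g r : ℕ) : Fintype.card (BE g (2 * r)) = 4 * r ^ 2 * g ^ 2 := by
  simp only [Fintype.card_prod, Fintype.card_fin]
  ring

/-- The monotone lower bound for the block function on two slices: a disjunction of outputs of a
monotone straight-line program with at most `2 ^ r` gates is wrong on some assignment with exactly
`GG r ^ 2` true variables or on some assignment with exactly `GG r ^ 2` false variables. -/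
theorem hard2 (r : ℕ) (hr : 2 ≤ r) (s : ℕ) (hs : s ≤ 2 ^ r)
    (gt : ℕ → Set (BE (GG r) (2 * r)) → Prop) (hg : IsSLP gt s)
    (O : Set (Set (BE (GG r) (2 * r)) → Prop)) (hO : ∀ o ∈ O, Avail gt s o)
    (hpos : ∀ z, TC z → z.ncard = GG r ^ 2 → ∃ o ∈ O, o z)
    (hneg : ∀ z : Set (BE (GG r) (2 * r)), ¬ TC z → zᶜ.ncard = GG r ^ 2 → ∀ o ∈ O, ¬ o z) :
    False := by
  have hr2 : 0 < r ^ 2 := by positivity
  exact hard2_gen r (GG r) (2 * r) (4 * r ^ 2) hr rfl rfl (card_BE _ _)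
    (card_TC_four' (by omega) (card_BE _ _) rfl (two_le_GG r hr) (LL_spec r)) s hs gt hg O hO
    hpos hneg

end Pool.Agent.T9h36
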